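import Pool.Agent.Lib.MP_d0f9e0_co.FD.Place

/-!
# The Galois step over `ℂ`

`exists_conj`: a real algebraic function `c` on a finite group such that
`c(t) ^ (q²) ≡ c(q t)` at all places over the primes `q` for which `D` is not a square. Then there
is an automorphism `σ` of `ℂ` with `σ √D = -√D` and `conj (σ (c t)) = σ (c (-t))`.
-/

open scoped NumberField
open IsDedekindDomain NumberField

namespace Pool.Agent.Lib.MP_d0f9e0_co.FD

/-- a finite Galois extension containing a finite set of algebraic elements -/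
theorem exists_galois_aux {K L : Type*} [Field K] [Field L] [Algebra K L] [IsAlgClosed L]
    [CharZero K] (S : Set L) (hS : S.Finite) (hSalg : ∀ s ∈ S, IsAlgebraic K s) :
    ∃ M : IntermediateField K L, S ⊆ M ∧ FiniteDimensional K M ∧ IsGalois K M := by
  classical
  let p : Polynomial K := ∏ s ∈ hS.toFinset, minpoly K s
  have hp0 : p ≠ 0 := by
    rw [Finset.prod_ne_zero_iff]
    intro s hs
    exact minpoly.ne_zero (hSalg s (hS.mem_toFinset.1 hs)).isIntegral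
  have hspl : (p.map (algebraMap K L)).Splits := IsAlgClosed.splits _
  have h1 := IntermediateField.adjoin_rootSet_isSplittingField hspl
  refine ⟨IntermediateField.adjoin K (p.rootSet L), ?_, ?_, ?_⟩
  · intro s hs
    apply IntermediateField.subset_adjoin
    rw [Polynomial.mem_rootSet]
    refine ⟨hp0, ?_⟩
    rw [map_prod]
    exact Finset.prod_eq_zero (hS.mem_toFinset.2 hs) (minpoly.aeval K s)
  · exact Polynomial.IsSplittingField.finiteDimensional _ p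
  · have h2 : Normal K (IntermediateField.adjoin K (p.rootSet L)) :=
      Normal.of_isSplittingField p
    exact { h2 with }

/-- a Galois number field in `ℂ` containing a finite set of algebraic numbers -/
theorem exists_galois (S : Set ℂ) (hS : S.Finite) (hSalg : ∀ s ∈ S, IsAlgebraic ℚ s) :
    ∃ M : IntermediateField ℚ ℂ, S ⊆ M ∧ FiniteDimensional ℚ M ∧ IsGalois ℚ M := by
  obtain ⟨M, h1, h2, h3⟩ := exists_galois_aux S hS hSalg
  exact ⟨M, h1, h2, h3⟩

/-- an automorphism of a subfield of `ℂ` extends to `ℂ` -/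
theorem exists_extend (M : IntermediateField ℚ ℂ) (σ : M ≃ₐ[ℚ] M) :
    ∃ s : ℂ ≃+* ℂ, ∀ x : M, s (x : ℂ) = (σ x : M) := by
  obtain ⟨ι, v, hv⟩ := exists_isTranscendenceBasis' M ℂ
  have := IsAlgClosed.isAlgClosure_of_transcendence_basis v hv
  let e : Algebra.adjoin M (Set.range v) ≃+* Algebra.adjoin M (Set.range v) :=
    hv.1.aevalEquiv.symm.toRingEquiv.trans
      ((MvPolynomial.mapEquiv ι σ.toRingEquiv).trans hv.1.aevalEquiv.toRingEquiv)
  refine ⟨IsAlgClosure.equivOfEquiv ℂ ℂ e, fun x => ?_⟩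
  have h1 := IsAlgClosure.equivOfEquiv_algebraMap ℂ ℂ e
    (algebraMap M (Algebra.adjoin M (Set.range v)) x)
  have h2 : e (algebraMap M (Algebra.adjoin M (Set.range v)) x) =
      algebraMap M (Algebra.adjoin M (Set.range v)) (σ x) := by
    show hv.1.aevalEquiv (MvPolynomial.map (σ.toRingEquiv : M →+* M)
      (hv.1.aevalEquiv.symm (algebraMap M _ x))) = _
    rw [AlgEquiv.commutes, MvPolynomial.algebraMap_eq, MvPolynomial.map_C,
      ← MvPolynomial.algebraMap_eq, AlgEquiv.commutes]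
    rfl
  rw [h2] at h1
  exact h1

/-- at a Frobenius moving `√D` the integer `D` is not a square mod `q` -/
theorem not_isSquare_of_frob (M : IntermediateField ℚ ℂ) [NumberField M] (Q : Ideal (𝓞 M))
    (hQ : Q.IsMaximal) (hQ0 : Q ≠ ⊥) (O : ValuationSubring ℂ)
    (hO1 : ∀ x : 𝓞 M, ((x : M) : ℂ) ∈ O)
    (hO2 : ∀ x : 𝓞 M, x ∈ Q → ((x : M) : ℂ) ∈ O.nonunits) (h : M ≃ₐ[ℚ] M) (q : ℕ)
    (hq : q.Prime) (hq2 : q ≠ 2) (hqO : (q : ℂ) ∈ O.nonunits)
    (hh : ∀ x : 𝓞 M, h • x - x ^ q ∈ Q) (D : ℤ) (hqD : ((D : ℤ) : ZMod q) ≠ 0) (s : M)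
    (hs : s ^ 2 = ((D : ℤ) : M)) (hhs : h s = -s) (hbd : (2 : ℂ) * (s : ℂ) ∉ O.nonunits) :
    ¬ IsSquare ((D : ℤ) : ZMod q) := by
  intro hsq
  have : Fact q.Prime := ⟨hq⟩
  have hsO : (s : ℂ) ∈ O := by
    have h1 : IsIntegral ℤ s := by
      apply IsIntegral.of_pow (n := 2) (by norm_num)
      rw [hs]
      exact isIntegral_algebraMap (x := D)
    exact hO1 ⟨s, h1⟩
  obtain ⟨-, h2⟩ := frob_place M Q hQ hQ0 O hO1 hO2 h q hh s hsO
  have h3 : ((D : ℤ) : ZMod q) ^ (q / 2) = 1 := (ZMod.euler_criterion q hqD).1 hsq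
  have h4 : ((D ^ (q / 2) - 1 : ℤ) : ZMod q) = 0 := by
    push_cast
    rw [h3, sub_self]
  obtain ⟨k, hk⟩ := (ZMod.intCast_zmod_eq_zero_iff_dvd _ q).1 h4
  have hsC : (s : ℂ) ^ 2 = ((D : ℤ) : ℂ) := by
    have := congrArg (fun z : M => (z : ℂ)) hs
    simpa using this
  have h5 : (s : ℂ) ^ q = (s : ℂ) * (1 + (q : ℂ) * (k : ℂ)) := by
    have hodd : q = 2 * (q / 2) + 1 := by
      have := Nat.two_mul_div_two_add_one_of_odd (hq.odd_of_ne_two hq2)
      exact this.symm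
    have h6 : ((D : ℤ) : ℂ) ^ (q / 2) = 1 + (q : ℂ) * (k : ℂ) := by
      have h7 : D ^ (q / 2) = 1 + (q : ℤ) * k := by linarith
      exact_mod_cast congrArg (fun n : ℤ => (n : ℂ)) h7
    calc (s : ℂ) ^ q = (s : ℂ) ^ (2 * (q / 2) + 1) := by rw [← hodd]
      _ = (s : ℂ) * ((s : ℂ) ^ 2) ^ (q / 2) := by rw [pow_succ, pow_mul, mul_comm]
      _ = _ := by rw [hsC, h6]
  have h6 : ((h s : M) : ℂ) = -(s : ℂ) := by
    rw [hhs]
    simp
  rw [h5, h6] at h2
  have h7 : (s : ℂ) * ((q : ℂ) * (k : ℂ)) ∈ O.nonunits :=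
    mul_mem_nonunits hsO (mul_mem_nonunits' hqO (intCast_mem O k))
  apply hbd
  have h8 := neg_mem (add_mem h2 h7)
  have h9 : -(-(s : ℂ) - (s : ℂ) * (1 + (q : ℂ) * (k : ℂ)) + (s : ℂ) * ((q : ℂ) * (k : ℂ))) =
      2 * (s : ℂ) := by ring
  rwa [h9] at h8

/-- **The Galois step over `ℂ`.** -/
theorem exists_conj (D : ℤ) (hD : ¬ IsSquare (D : ℚ)) (sD : ℂ) (hsD : sD ^ 2 = ((D : ℤ) : ℂ))
    (hreal : (starRingEnd ℂ) sD = sD)
    {T : Type*} [AddCommGroup T] [Finite T] (c : T → ℂ) (hcalg : ∀ t, IsAlgebraic ℚ (c t))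
    (hcreal : ∀ t, (starRingEnd ℂ) (c t) = c t) (N : ℕ)
    (law : ∀ q : ℕ, q.Prime → N < q → ¬ IsSquare ((D : ℤ) : ZMod q) →
      ∀ O : ValuationSubring ℂ, (q : ℂ) ∈ O.nonunits →
        ∀ t, c t ∈ O ∧ c t ^ (q ^ 2) - c (q • t) ∈ O.nonunits) :
    ∃ σ : ℂ ≃+* ℂ, σ sD = -sD ∧ ∀ t, (starRingEnd ℂ) (σ (c t)) = σ (c (-t)) := by
  classical
  have := Fintype.ofFinite T
  set e := Nat.card T with he
  have : NeZero e := ⟨by rw [he]; exact Nat.card_pos.ne'⟩
  have hT : ∀ t : T, e • t = 0 := fun t => by rw [he]; exact card_nsmul_eq_zero'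
  have hζ := Complex.isPrimitiveRoot_exp e (NeZero.ne e)
  set ζ : ℂ := Complex.exp (2 * Real.pi * Complex.I / e) with hζdef
  have hsDalg : IsAlgebraic ℚ sD := by
    have h1 : IsAlgebraic ℚ (sD ^ 2) := by
      rw [hsD]
      exact isAlgebraic_intCast D
    exact IsAlgebraic.of_pow (by norm_num : 0 < 2) h1
  have hζalg : IsAlgebraic ℚ ζ := by
    have h1 : IsAlgebraic ℚ (ζ ^ e) := by
      rw [hζ.pow_eq_one]
      exact isAlgebraic_one
    exact IsAlgebraic.of_pow (NeZero.pos e) h1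
  obtain ⟨M, hM, hfin, hgal⟩ := exists_galois (Set.range c ∪ {sD, ζ})
    ((Set.finite_range c).union (by simp)) (by
      rintro s (⟨t, rfl⟩ | hs)
      · exact hcalg t
      · rcases hs with rfl | hs
        · exact hsDalg
        · rw [Set.mem_singleton_iff] at hs
          rw [hs]
          exact hζalg)
  have : NumberField M := { to_charZero := inferInstance, to_finiteDimensional := hfin }
  let c' : T → M := fun t => ⟨c t, hM (Or.inl ⟨t, rfl⟩)⟩
  let s : M := ⟨sD, hM (Or.inr (Or.inl rfl))⟩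
  let z : M := ⟨ζ, hM (Or.inr (Or.inr rfl))⟩
  have hs : s ^ 2 = ((D : ℤ) : M) := by
    apply Subtype.ext
    have : ((s ^ 2 : M) : ℂ) = sD ^ 2 := rfl
    rw [this, hsD]
    simp
  have hs0 : s ≠ 0 := by
    intro h0
    rw [h0] at hs
    apply hD
    have h1 : (D : ℤ) = 0 := by
      have : ((D : ℤ) : M) = 0 := by rw [← hs]; ring
      exact_mod_cast this
    rw [h1]
    exact ⟨0, by simp⟩
  have hz : IsPrimitiveRoot z e :=
    IsPrimitiveRoot.of_map_of_injective (f := algebraMap M ℂ) hζ (algebraMap M ℂ).injective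
  let τ : M ≃ₐ[ℚ] M := (Complex.conjAe.restrictScalars ℚ).restrictNormal M
  have hτ : ∀ x : M, ((τ x : M) : ℂ) = (starRingEnd ℂ) (x : ℂ) := fun x =>
    AlgEquiv.restrictNormal_commutes (Complex.conjAe.restrictScalars ℚ) M x
  let Γ : Subgroup (M ≃ₐ[ℚ] M) := MulAction.stabilizer _ s
  have hΓ : ∀ g : M ≃ₐ[ℚ] M, g ∈ Γ ↔ g s = s := fun g => MulAction.mem_stabilizer_iff
  have hpm : ∀ g : M ≃ₐ[ℚ] M, g s = s ∨ g s = -s := by
    intro g
    rw [← sq_eq_sq_iff_eq_or_eq_neg, ← map_pow, hs, map_intCast]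
  have hind : Γ.index = 2 := by
    rw [Subgroup.index_eq_two_iff]
    obtain ⟨a, ha⟩ : ∃ a : M ≃ₐ[ℚ] M, a s ≠ s := by
      by_contra hall
      push Not at hall
      have h1 : s ∈ (⊥ : IntermediateField ℚ M) :=
        (IsGalois.mem_bot_iff_fixed s).2 hall
      rw [IntermediateField.mem_bot] at h1
      obtain ⟨r, hr⟩ := h1
      apply hD
      refine ⟨r, ?_⟩
      have h2 : algebraMap ℚ M (r * r) = algebraMap ℚ M (D : ℚ) := by
        rw [map_mul, hr, ← sq, hs]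
        simp
      exact ((algebraMap ℚ M).injective h2).symm
    have ha' : a s = -s := (hpm a).resolve_left ha
    have hne : s ≠ -s := by
      intro h
      apply hs0
      exact self_eq_neg.1 h
    refine ⟨a, fun b => ?_⟩
    rw [hΓ, hΓ, AlgEquiv.mul_apply, ha', map_neg]
    rcases hpm b with hb | hb
    · rw [hb]
      exact Or.inr ⟨rfl, fun h => hne h.symm⟩
    · rw [hb, neg_neg]
      exact Or.inl ⟨rfl, fun h => hne h.symm⟩
  -- the bound
  let S' : Finset ℂ := insert (2 * sD) (Finset.univ.image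
    (fun p : (M ≃ₐ[ℚ] M) × T × T => ((p.1 (c' p.2.1) : M) : ℂ) - c p.2.2))
  have hS' : ∀ y ∈ S', IsAlgebraic ℚ y := by
    intro y hy
    have hMalg : ∀ x : M, IsAlgebraic ℚ (x : ℂ) := fun x =>
      (Algebra.IsAlgebraic.isAlgebraic x).algebraMap
    rcases Finset.mem_insert.1 hy with rfl | hy
    · rw [two_mul]
      exact hsDalg.add hsDalg
    · obtain ⟨p, -, rfl⟩ := Finset.mem_image.1 hy
      exact (hMalg _).sub (hcalg _)
  obtain ⟨N1, hN1⟩ := exists_bound S' hS'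
  have hlaw : ∀ q : ℕ, q.Prime → max (max N N1) (max 2 D.natAbs) < q →
      ∀ Q : Ideal (𝓞 M), Q.IsMaximal → ((q : ℕ) : 𝓞 M) ∈ Q →
      ∀ h : M ≃ₐ[ℚ] M, h ∉ Γ → (∀ x : 𝓞 M, h • x - x ^ q ∈ Q) → Law c' h q := by
    intro q hq hqN Q hQ hqQ h hhΓ hh
    have hN : N < q := lt_of_le_of_lt ((le_max_left _ _).trans (le_max_left _ _)) hqN
    have hNN1 : N1 < q := lt_of_le_of_lt ((le_max_right _ _).trans (le_max_left _ _)) hqN
    have hN2 : 2 < q := lt_of_le_of_lt ((le_max_left _ _).trans (le_max_right _ _)) hqN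
    have hND : D.natAbs < q := lt_of_le_of_lt ((le_max_right _ _).trans (le_max_right _ _)) hqN
    have hQ0 : Q ≠ ⊥ := by
      intro h0
      rw [h0, Ideal.mem_bot] at hqQ
      exact hq.ne_zero (by exact_mod_cast hqQ)
    obtain ⟨O, hO1, hO2⟩ := exists_place M Q hQ.ne_top
    have hqO : (q : ℂ) ∈ O.nonunits := by
      have := hO2 _ hqQ
      simpa using this
    have hsq : ¬ IsSquare ((D : ℤ) : ZMod q) := by
      refine not_isSquare_of_frob M Q hQ hQ0 O hO1 hO2 h q hq hN2.ne' hqO hh D ?_ s hs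
        ((hpm h).resolve_left (fun h' => hhΓ ((hΓ h).2 h'))) ?_
      · intro h0
        have h1 := (ZMod.intCast_zmod_eq_zero_iff_dvd _ q).1 h0
        have h2 : D = 0 := by
          by_contra hD0
          have h3 := Int.natAbs_dvd_natAbs.2 h1
          rw [Int.natAbs_natCast] at h3
          have := Nat.le_of_dvd (Int.natAbs_pos.2 hD0) h3
          omega
        apply hD
        rw [h2]
        exact ⟨0, by simp⟩
      · apply hN1 q hq hNN1 O hqO _ (Finset.mem_insert_self _ _)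
        intro h0
        apply hs0
        apply Subtype.ext
        have : sD = 0 := by simpa using h0
        exact this
    intro t
    obtain ⟨hct, hlaw⟩ := law q hq hN hsq O hqO t
    have h1 := frob_place_sq M Q hQ hQ0 O hO1 hO2 h q hh (c' t) hct
    have h2 := add_mem h1 hlaw
    have h3 : ((h (h (c' t)) : M) : ℂ) - (((c' t : M)) : ℂ) ^ (q ^ 2) + (c t ^ (q ^ 2) - c (q • t))
        = ((h (h (c' t)) : M) : ℂ) - c (q • t) := by
      show ((h (h (c' t)) : M) : ℂ) - (c t) ^ (q ^ 2) + (c t ^ (q ^ 2) - c (q • t)) = _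
      ring
    rw [h3] at h2
    apply Subtype.ext
    show ((h (h (c' t)) : M) : ℂ) = c (q • t)
    by_contra hne
    refine hN1 q hq hNN1 O hqO _ (Finset.mem_insert_of_mem (Finset.mem_image.2
      ⟨(h * h, t, q • t), Finset.mem_univ _, rfl⟩)) ?_ ?_
    · exact sub_ne_zero.2 hne
    · exact h2
  have hτΓ : τ ∈ Γ := by
    rw [hΓ]
    apply Subtype.ext
    rw [hτ]
    exact hreal
  have hτ2 : τ ^ 2 = 1 := by
    ext x
    show (((τ ^ 2) x : M) : ℂ) = (x : ℂ)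
    rw [sq, AlgEquiv.mul_apply, hτ, hτ, Complex.conj_conj]
  have hτz : τ z = z⁻¹ := by
    apply Subtype.ext
    rw [hτ]
    show (starRingEnd ℂ) ζ = ((z⁻¹ : M) : ℂ)
    have h1 : ((z⁻¹ : M) : ℂ) = ζ⁻¹ := by simp [z]
    rw [h1]
    have h2 : ‖ζ‖ = 1 := hζ.norm'_eq_one (NeZero.ne e)
    exact (Complex.inv_eq_conj h2).symm
  have hτc : ∀ t, τ (c' t) = c' t := by
    intro t
    apply Subtype.ext
    rw [hτ]
    exact hcreal t
  obtain ⟨σ, hσ, hσc⟩ := galois_step c' e hz hT Γ hind _ hlaw τ hτΓ hτ2 hτz hτc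
  obtain ⟨σ', hσ'⟩ := exists_extend M σ
  refine ⟨σ', ?_, fun t => ?_⟩
  · have h1 := hσ' s
    rw [(hpm σ).resolve_left (fun h => hσ ((hΓ σ).2 h))] at h1
    simpa using h1
  · have h1 := hσ' (c' t)
    have h2 := hσ' (c' (-t))
    show (starRingEnd ℂ) (σ' ((c' t : M) : ℂ)) = σ' ((c' (-t) : M) : ℂ)
    rw [h1, h2, ← hτ, hσc]

/-- The Galois step, final form: `c` real and algebraic with `c(t) c(-t) = 1` (for `t ∈ A`, e.g.
`t ≠ 0`); then `|σ (c t)| = 1` for one automorphism `σ` of `ℂ` with `σ √D = -√D`. -/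
theorem exists_norm_one (D : ℤ) (hD : ¬ IsSquare (D : ℚ)) (sD : ℂ) (hsD : sD ^ 2 = ((D : ℤ) : ℂ))
    (hreal : (starRingEnd ℂ) sD = sD)
    {T : Type*} [AddCommGroup T] [Finite T] (c : T → ℂ) (hcalg : ∀ t, IsAlgebraic ℚ (c t))
    (hcreal : ∀ t, (starRingEnd ℂ) (c t) = c t) (N : ℕ)
    (law : ∀ q : ℕ, q.Prime → N < q → ¬ IsSquare ((D : ℤ) : ZMod q) →
      ∀ O : ValuationSubring ℂ, (q : ℂ) ∈ O.nonunits →
        ∀ t, c t ∈ O ∧ c t ^ (q ^ 2) - c (q • t) ∈ O.nonunits) :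
    ∃ σ : ℂ ≃+* ℂ, σ sD = -sD ∧ ∀ t, c t * c (-t) = 1 → ‖σ (c t)‖ = 1 := by
  obtain ⟨σ, h1, h2⟩ := exists_conj D hD sD hsD hreal c hcalg hcreal N law
  refine ⟨σ, h1, fun t ht => ?_⟩
  have h3 : σ (c t) * (starRingEnd ℂ) (σ (c t)) = 1 := by
    rw [h2, ← map_mul, ht, map_one]
  rw [Complex.mul_conj, Complex.normSq_eq_norm_sq] at h3
  have h4 : ‖σ (c t)‖ ^ 2 = 1 := by exact_mod_cast h3
  nlinarith [norm_nonneg (σ (c t))]

/-- `T² - 4` is not a rational square for `T ≥ 3` -/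
theorem not_isSquare_sq_sub_four (T : ℤ) (hT : 3 ≤ T) : ¬ IsSquare ((T ^ 2 - 4 : ℤ) : ℚ) := by
  rw [Rat.isSquare_intCast_iff]
  rintro ⟨s, hs⟩
  have h1 : s.natAbs * s.natAbs = (T ^ 2 - 4) := by
    rw [hs]
    exact_mod_cast Int.natAbs_mul_self' s
  generalize hn : (s.natAbs : ℤ) = n at h1
  have hn0 : 0 ≤ n := by rw [← hn]; positivity
  have h2 : n < T := by nlinarith
  have h3 : n ≤ T - 1 := by omega
  nlinarith

/-- The Galois step for the discriminant `T² - 4` of a hyperbolic matrix of trace `T`. -/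
theorem exists_norm_one_trace (tr : ℤ) (htr : 3 ≤ tr)
    {T : Type*} [AddCommGroup T] [Finite T] (c : T → ℂ) (hcalg : ∀ t, IsAlgebraic ℚ (c t))
    (hcreal : ∀ t, (starRingEnd ℂ) (c t) = c t) (N : ℕ)
    (law : ∀ q : ℕ, q.Prime → N < q → ¬ IsSquare ((tr ^ 2 - 4 : ℤ) : ZMod q) →
      ∀ O : ValuationSubring ℂ, (q : ℂ) ∈ O.nonunits →
        ∀ t, c t ∈ O ∧ c t ^ (q ^ 2) - c (q • t) ∈ O.nonunits) :
    ∃ σ : ℂ ≃+* ℂ, σ ((Real.sqrt ((tr : ℝ) ^ 2 - 4) : ℝ) : ℂ) =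
        -((Real.sqrt ((tr : ℝ) ^ 2 - 4) : ℝ) : ℂ) ∧
      ∀ t, c t * c (-t) = 1 → ‖σ (c t)‖ = 1 := by
  have h0 : (0 : ℝ) ≤ (tr : ℝ) ^ 2 - 4 := by
    have : (3 : ℝ) ≤ (tr : ℝ) := by exact_mod_cast htr
    nlinarith
  refine exists_norm_one (tr ^ 2 - 4) (not_isSquare_sq_sub_four tr htr) _ ?_ ?_ c hcalg hcreal N
    law
  · rw [← Complex.ofReal_pow, Real.sq_sqrt h0]
    push_cast
    ring
  · exact Complex.conj_ofReal _

end Pool.Agent.Lib.MP_d0f9e0_co.FD
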