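import Mathlib

/-!
# Frobenius density (weak form), definitions

`ES x` is the Euler sum `∑_f ∏_a x_a ^ f_a` over finitely supported exponent vectors;
`wt F s p = N(p)^(-s)`.
-/

namespace Pool.Agent.Lib.MP_d0f9e0_co.FD

open scoped ENNReal NumberField
open IsDedekindDomain

/-- Euler sum over finitely supported exponent vectors. -/
noncomputable def ES {A : Type*} (x : A → ℝ≥0∞) : ℝ≥0∞ :=
  ∑' f : A →₀ ℕ, f.prod fun a n => x a ^ n

/-- `N(p)^(-s)` for a nonzero prime ideal `p` of the ring of integers. -/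
noncomputable def wt (F : Type*) [Field F] [NumberField F] (s : ℝ)
    (p : HeightOneSpectrum (𝓞 F)) : ℝ≥0∞ :=
  ENNReal.ofReal ((Ideal.absNorm p.asIdeal : ℝ) ^ (-s))

end Pool.Agent.Lib.MP_d0f9e0_co.FD
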