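import Pool.Agent.Lib.MP_d0f9e0_co.FD.Defs

/-!
# Euler sums over finitely supported exponent vectors

Multiplicativity, monotonicity under injections, finiteness.
-/

set_option autoImplicit false

namespace Pool.Agent.Lib.MP_d0f9e0_co.FD

open scoped ENNReal NumberField
open IsDedekindDomain

theorem ES_sum {A B : Type*} (x : A ⊕ B → ℝ≥0∞) :
    ES x = ES (fun a => x (Sum.inl a)) * ES (fun b => x (Sum.inr b)) := by
  classical
  unfold ES
  rw [← (Finsupp.sumFinsuppEquivProdFinsupp (α := A) (β := B) (γ := ℕ)).symm.tsum_eq,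
    ENNReal.tsum_prod']
  rw [← ENNReal.tsum_mul_right]
  refine tsum_congr fun f => ?_
  rw [← ENNReal.tsum_mul_left]
  refine tsum_congr fun g => ?_
  have h : (Finsupp.sumFinsuppEquivProdFinsupp (α := A) (β := B) (γ := ℕ)).symm (f, g) =
      f.mapDomain Sum.inl + g.mapDomain Sum.inr := by
    ext c
    rcases c with a | b
    · rw [Finsupp.sumFinsuppEquivProdFinsupp_symm_inl, Finsupp.add_apply,
        Finsupp.mapDomain_apply Sum.inl_injective, Finsupp.mapDomain_of_notMem_range _ _ (by simp),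
        add_zero]
    · rw [Finsupp.sumFinsuppEquivProdFinsupp_symm_inr, Finsupp.add_apply,
        Finsupp.mapDomain_apply Sum.inr_injective, Finsupp.mapDomain_of_notMem_range _ _ (by simp),
        zero_add]
  rw [h, Finsupp.prod_add_index' (fun a => pow_zero _) (fun a m n => pow_add _ _ _),
    Finsupp.prod_mapDomain_index_inj Sum.inl_injective,
    Finsupp.prod_mapDomain_index_inj Sum.inr_injective]

theorem ES_le_of_injective {A B : Type*} (x : A → ℝ≥0∞) (y : B → ℝ≥0∞) (i : A → B)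
    (hi : Function.Injective i) (h : ∀ a, x a ≤ y (i a)) : ES x ≤ ES y := by
  classical
  unfold ES
  calc ∑' f : A →₀ ℕ, f.prod (fun a n => x a ^ n)
      ≤ ∑' f : A →₀ ℕ, (f.mapDomain i).prod (fun a n => y a ^ n) := by
        refine ENNReal.tsum_le_tsum fun f => ?_
        rw [Finsupp.prod_mapDomain_index_inj hi]
        exact Finset.prod_le_prod' fun a _ => pow_le_pow_left' (h a) _
    _ ≤ ∑' f : B →₀ ℕ, f.prod (fun a n => y a ^ n) :=
        ENNReal.tsum_comp_le_tsum_of_injective (Finsupp.mapDomain_injective hi) _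

theorem sum_geom_le_exp {x : ℝ≥0∞} (h2 : x ≤ 1 / 2) (N : ℕ) :
    ∑ n ∈ Finset.range N, x ^ n ≤ ENNReal.ofReal (Real.exp (2 * x.toReal)) := by
  have hx : x ≠ ⊤ := ne_top_of_le_ne_top (by simp) h2
  obtain ⟨r, rfl⟩ : ∃ r : NNReal, x = r := ⟨x.toNNReal, (ENNReal.coe_toNNReal hx).symm⟩
  have hr : (r : ℝ) ≤ 1 / 2 := by
    have := ENNReal.toReal_mono (by simp) h2
    simpa using this
  have hr0 : (0 : ℝ) ≤ r := r.2
  have h1 : ∑ n ∈ Finset.range N, (r : ℝ≥0∞) ^ n =
      ENNReal.ofReal (∑ n ∈ Finset.range N, (r : ℝ) ^ n) := by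
    rw [ENNReal.ofReal_sum_of_nonneg (fun i _ => by positivity)]
    refine Finset.sum_congr rfl fun n _ => ?_
    rw [ENNReal.ofReal_pow hr0, ENNReal.ofReal_coe_nnreal]
  rw [h1]
  refine ENNReal.ofReal_le_ofReal ?_
  have h3 : ∑ n ∈ Finset.range N, (r : ℝ) ^ n ≤ 1 + 2 * r := by
    have h4 : (∑ n ∈ Finset.range N, (r : ℝ) ^ n) * (1 - r) ≤ 1 := by
      rw [geom_sum_mul_neg]
      have := pow_nonneg hr0 N
      linarith
    have h5 : (0 : ℝ) ≤ ∑ n ∈ Finset.range N, (r : ℝ) ^ n :=
      Finset.sum_nonneg fun i _ => by positivity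
    nlinarith
  calc ∑ n ∈ Finset.range N, (r : ℝ) ^ n ≤ 2 * r + 1 := by linarith
    _ ≤ Real.exp (2 * r) := Real.add_one_le_exp _

theorem ES_lt_top {A : Type*} (x : A → ℝ≥0∞) (h2 : ∀ a, x a ≤ 1 / 2)
    (hs : ∑' a, x a < ⊤) : ES x < ⊤ := by
  classical
  refine lt_of_le_of_lt (b := ENNReal.ofReal (Real.exp (2 * (∑' a, x a).toReal))) ?_
    ENNReal.ofReal_lt_top
  unfold ES
  rw [ENNReal.tsum_eq_iSup_sum]
  refine iSup_le fun F => ?_
  set s : Finset A := F.sup fun f => f.support with hsdef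
  set N : ℕ := (F.sup fun f => f.support.sup fun a => f a) + 1 with hN
  have hsup : ∀ f ∈ F, f.support ⊆ s := fun f hf =>
    Finset.le_sup (f := fun f : A →₀ ℕ => f.support) hf
  have hlt : ∀ f ∈ F, ∀ a, f a < N := by
    intro f hf a
    have h1 : f a ≤ f.support.sup fun a => f a := by
      by_cases ha : a ∈ f.support
      · exact Finset.le_sup (f := fun a => f a) ha
      · rw [Finsupp.notMem_support_iff.mp ha]
        exact Nat.zero_le _
    have h3 : (f.support.sup fun a => f a) ≤ F.sup fun f => f.support.sup fun a => f a :=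
      Finset.le_sup (f := fun f : A →₀ ℕ => f.support.sup fun a => f a) hf
    omega
  have key : ∑ f ∈ F, f.prod (fun a n => x a ^ n) ≤
      ∏ a ∈ s, ∑ n ∈ Finset.range N, x a ^ n := by
    rw [Finset.prod_sum]
    let i : (A →₀ ℕ) → (∀ a ∈ s, ℕ) := fun f a _ => f a
    have hi : Set.InjOn i (F : Set (A →₀ ℕ)) := by
      intro f hf g hg hfg
      ext a
      by_cases ha : a ∈ s
      · exact congrFun (congrFun hfg a) ha
      · have h1 : a ∉ f.support := fun h => ha (hsup f hf h)
        have h3 : a ∉ g.support := fun h => ha (hsup g hg h)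
        rw [Finsupp.notMem_support_iff.mp h1, Finsupp.notMem_support_iff.mp h3]
    calc ∑ f ∈ F, f.prod (fun a n => x a ^ n)
        = ∑ f ∈ F, ∏ a ∈ s.attach, x a.1 ^ (i f a.1 a.2) := by
          refine Finset.sum_congr rfl fun f hf => ?_
          rw [Finset.prod_attach s (fun a => x a ^ f a)]
          exact Finsupp.prod_of_support_subset f (hsup f hf) _ (fun a _ => pow_zero _)
      _ = ∑ p ∈ F.image i, ∏ a ∈ s.attach, x a.1 ^ (p a.1 a.2) := by
          rw [Finset.sum_image hi]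
      _ ≤ ∑ p ∈ s.pi fun _ => Finset.range N, ∏ a ∈ s.attach, x a.1 ^ (p a.1 a.2) := by
          refine Finset.sum_le_sum_of_subset ?_
          intro p hp
          obtain ⟨f, hf, rfl⟩ := Finset.mem_image.mp hp
          rw [Finset.mem_pi]
          intro a ha
          exact Finset.mem_range.mpr (hlt f hf a)
  refine key.trans ?_
  calc ∏ a ∈ s, ∑ n ∈ Finset.range N, x a ^ n
      ≤ ∏ a ∈ s, ENNReal.ofReal (Real.exp (2 * (x a).toReal)) :=
        Finset.prod_le_prod' fun a _ => sum_geom_le_exp (h2 a) N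
    _ = ENNReal.ofReal (Real.exp (2 * ∑ a ∈ s, (x a).toReal)) := by
        rw [← ENNReal.ofReal_prod_of_nonneg (fun a _ => (Real.exp_pos _).le), ← Real.exp_sum,
          Finset.mul_sum]
    _ ≤ ENNReal.ofReal (Real.exp (2 * (∑' a, x a).toReal)) := by
        refine ENNReal.ofReal_le_ofReal (Real.exp_le_exp.mpr ?_)
        have hne : ∀ a ∈ s, x a ≠ ⊤ := fun a _ => ne_top_of_le_ne_top (by simp) (h2 a)
        rw [← ENNReal.toReal_sum hne]
        have := ENNReal.toReal_mono hs.ne (ENNReal.sum_le_tsum s (f := x))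
        linarith

end Pool.Agent.Lib.MP_d0f9e0_co.FD
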