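import Pool.Agent.Lib.MP_d0f9e0_co.FD.Quad

/-!
# Frobenius density, the form needed for elements of order a power of two

`exists_frob`: `M/ℚ` finite Galois, `g` of order `2^a`, `g ≠ 1`: for every `N` there are a prime
`q > N`, a prime `Q` of `𝓞 M` over `q`, a Frobenius `h` at `Q` (over `ℚ`) and `f`, `j` with `j` odd
such that `h ^ f = g ^ j`.
-/

open scoped NumberField
open IsDedekindDomain NumberField

namespace Pool.Agent.Lib.MP_d0f9e0_co.FD

variable {M : Type*} [Field M] [NumberField M]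

/-- the automorphism of the fixed field of `g²` induced by `g` -/
noncomputable def sig (g : M ≃ₐ[ℚ] M) (F F' : IntermediateField ℚ M)
    (hF : ∀ x ∈ F, g x = x) (hF' : ∀ x, x ∈ F' ↔ g (g x) = x) (hle : F ≤ F') :
    letI := (IntermediateField.inclusion hle).toAlgebra
    F' ≃ₐ[F] F' :=
  letI := (IntermediateField.inclusion hle).toAlgebra
  { toFun := fun x => ⟨g x.1, (hF' _).2 (by rw [(hF' _).1 x.2])⟩
    invFun := fun x => ⟨g.symm x.1, (hF' _).2 (by
      rw [AlgEquiv.apply_symm_apply]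
      apply g.injective
      have := (hF' _).1 x.2
      rw [this, AlgEquiv.apply_symm_apply])⟩
    left_inv := fun x => by ext; simp
    right_inv := fun x => by ext; simp
    map_mul' := fun x y => by ext; simp
    map_add' := fun x y => by ext; simp
    commutes' := fun x => by
      ext
      exact hF x.1 x.2 }

/-- a finite field all of whose elements satisfy `y ^ n = y` has at most `n` elements -/
theorem card_le_of_pow_eq {k : Type*} [Field k] [Finite k] {n : ℕ} (hn : 1 < n)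
    (h : ∀ y : k, y ^ n = y) : Nat.card k ≤ n := by
  classical
  have := Fintype.ofFinite k
  rw [Nat.card_eq_fintype_card]
  have hp : (Polynomial.X ^ n - Polynomial.X : Polynomial k) ≠ 0 :=
    FiniteField.X_pow_card_sub_X_ne_zero k hn
  have h1 : (Finset.univ : Finset k) ⊆
      (Polynomial.X ^ n - Polynomial.X : Polynomial k).roots.toFinset := by
    intro y _
    rw [Multiset.mem_toFinset, Polynomial.mem_roots hp]
    simp [h y]
  calc Fintype.card k = (Finset.univ : Finset k).card := rfl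
    _ ≤ _ := Finset.card_le_card h1
    _ ≤ Multiset.card (Polynomial.X ^ n - Polynomial.X : Polynomial k).roots :=
        Multiset.toFinset_card_le _
    _ ≤ (Polynomial.X ^ n - Polynomial.X : Polynomial k).natDegree := Polynomial.card_roots' _
    _ = n := FiniteField.X_pow_card_sub_X_natDegree_eq k hn

omit [NumberField M] in
/-- iterating a Frobenius congruence -/
theorem iterate_congr {G : Type*} [Group G] [MulSemiringAction G (𝓞 M)] (Q : Ideal (𝓞 M)) (h : G)
    (q : ℕ) (hh : ∀ x : 𝓞 M, h • x - x ^ q ∈ Q) (f : ℕ) (x : 𝓞 M) :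
    h ^ f • x - x ^ (q ^ f) ∈ Q := by
  induction f with
  | zero => simp
  | succ f ih =>
    have h1 := hh (h ^ f • x)
    have h2 : (h ^ f • x) ^ q - (x ^ (q ^ f)) ^ q ∈ Q :=
      Q.mem_of_dvd (sub_dvd_pow_sub_pow _ _ q) ih
    have h3 := Q.add_mem h1 h2
    rw [sub_add_sub_cancel] at h3
    rw [pow_succ' h f, mul_smul, pow_succ q f, pow_mul]
    exact h3

/-- an integer moved by all nontrivial elements of `Gal(M/ℚ)` -/
theorem exists_moved : ∃ δ : 𝓞 M, δ ≠ 0 ∧ ∀ (Q : Ideal (𝓞 M)) (τ : M ≃ₐ[ℚ] M), τ ≠ 1 →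
    (∀ x : 𝓞 M, τ • x - x ∈ Q) → δ ∈ Q := by
  classical
  have h1 : ∀ τ : M ≃ₐ[ℚ] M, τ ≠ 1 → ∃ x : 𝓞 M, τ • x - x ≠ 0 := by
    intro τ hτ
    by_contra hall
    push Not at hall
    apply hτ
    ext y
    obtain ⟨a, b, hb, rfl⟩ := IsFractionRing.div_surjective (A := 𝓞 M) y
    have h2 : ∀ z : 𝓞 M, τ (algebraMap (𝓞 M) M z) = algebraMap (𝓞 M) M z := by
      intro z
      have h3 := hall z
      rw [sub_eq_zero] at h3
      exact congrArg (algebraMap (𝓞 M) M) h3
    rw [map_div₀, h2, h2]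
    rfl
  choose x hx using h1
  have : Fintype (M ≃ₐ[ℚ] M) := Fintype.ofFinite _
  refine ⟨∏ τ : M ≃ₐ[ℚ] M, if h : τ ≠ 1 then τ • x τ h - x τ h else 1, ?_, ?_⟩
  · rw [Finset.prod_ne_zero_iff]
    intro τ _
    split_ifs with h
    · exact hx τ h
    · exact one_ne_zero
  · intro Q τ hτ hall
    refine Q.mem_of_dvd (Finset.dvd_prod_of_mem _ (Finset.mem_univ τ)) ?_
    rw [dif_pos hτ]
    exact hall _

/-- an element of `2`-power order which lies in the group generated by its square is trivial -/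
theorem eq_one_of_mem_zpowers_sq {G : Type*} [Group G] (g : G) (a : ℕ) (ha : g ^ (2 ^ a) = 1)
    (h : g ∈ Subgroup.zpowers (g ^ 2)) : g = 1 := by
  obtain ⟨k, hk⟩ := Subgroup.mem_zpowers_iff.1 h
  have h1 : g ^ (2 * k - 1 : ℤ) = 1 := by
    rw [zpow_sub, zpow_one, zpow_mul]
    have : (g ^ (2 : ℤ)) ^ k = g := by
      have h2 : g ^ (2 : ℤ) = g ^ 2 := by norm_cast
      rw [h2, hk]
    rw [this, mul_inv_cancel]
  have h2 : (orderOf g : ℤ) ∣ 2 * k - 1 := orderOf_dvd_iff_zpow_eq_one.2 h1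
  have h3 : orderOf g ∣ 2 ^ a := orderOf_dvd_of_pow_eq_one ha
  obtain ⟨b, hb, hb2⟩ := (Nat.dvd_prime_pow Nat.prime_two).1 h3
  rcases Nat.eq_zero_or_pos b with hb0 | hb0
  · rw [hb0, pow_zero] at hb2
    exact orderOf_eq_one_iff.1 hb2
  · exfalso
    have h4 : (2 : ℤ) ∣ 2 * k - 1 := by
      refine dvd_trans ?_ h2
      rw [hb2]
      exact_mod_cast dvd_pow_self 2 hb0.ne'
    omega

variable [IsGalois ℚ M]

/-- **Frobenius density, elements of `2`-power order.** -/
theorem exists_frob (g : M ≃ₐ[ℚ] M) (hg : g ≠ 1) (a : ℕ) (ha : g ^ (2 ^ a) = 1) (N : ℕ) :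
    ∃ q : ℕ, q.Prime ∧ N < q ∧ ∃ Q : Ideal (𝓞 M), Q.IsMaximal ∧ ((q : ℕ) : 𝓞 M) ∈ Q ∧
      ∃ h : M ≃ₐ[ℚ] M, (∀ x : 𝓞 M, h • x - x ^ q ∈ Q) ∧
        ∃ f j : ℕ, Odd j ∧ h ^ f = g ^ j := by
  classical
  set F : IntermediateField ℚ M := IntermediateField.fixedField (Subgroup.zpowers g) with hFdef
  set F' : IntermediateField ℚ M := IntermediateField.fixedField (Subgroup.zpowers (g ^ 2))
    with hF'def
  have hmemF : ∀ x, x ∈ F ↔ g x = x := by
    intro x
    rw [hFdef, IntermediateField.mem_fixedField_iff]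
    constructor
    · intro h
      exact h g (Subgroup.mem_zpowers g)
    · intro h f hf
      have h1 : g ∈ MulAction.stabilizer (M ≃ₐ[ℚ] M) x := h
      have h2 := (Subgroup.zpowers_le.2 h1) hf
      exact h2
  have hmemF' : ∀ x, x ∈ F' ↔ g (g x) = x := by
    intro x
    rw [hF'def, IntermediateField.mem_fixedField_iff]
    constructor
    · intro h
      have := h (g ^ 2) (Subgroup.mem_zpowers _)
      rw [sq] at this
      exact this
    · intro h f hf
      have h1 : g ^ 2 ∈ MulAction.stabilizer (M ≃ₐ[ℚ] M) x := by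
        rw [MulAction.mem_stabilizer_iff, sq]
        exact h
      have h2 := (Subgroup.zpowers_le.2 h1) hf
      exact h2
  have hle : F ≤ F' := by
    intro x hx
    rw [hmemF'] 
    rw [hmemF] at hx
    rw [hx, hx]
  let _ : Algebra F F' := (IntermediateField.inclusion hle).toAlgebra
  have _ : IsScalarTower F F' M := IsScalarTower.of_algebraMap_eq (fun x => rfl)
  let σ : F' ≃ₐ[F] F' := sig g F F' (fun x hx => (hmemF x).1 hx) hmemF' hle
  have hσ : σ ≠ 1 := by
    intro h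
    apply hg
    apply eq_one_of_mem_zpowers_sq g a ha
    have h1 : g ∈ F'.fixingSubgroup := by
      rw [IntermediateField.mem_fixingSubgroup_iff]
      intro x hx
      have h2 : σ ⟨x, hx⟩ = ⟨x, hx⟩ := by rw [h]; rfl
      exact congrArg Subtype.val h2
    rw [hF'def, IntermediateField.fixingSubgroup_fixedField] at h1
    exact h1
  obtain ⟨δ, hδ0, hδ⟩ := exists_moved (M := M)
  -- finite set of primes to be avoided
  have hfin1 : {p : HeightOneSpectrum (𝓞 F) | ((N.factorial : ℕ) : 𝓞 F) ∈ p.asIdeal}.Finite :=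
    finite_primes_containing _ (by exact_mod_cast N.factorial_ne_zero)
  have hfin2 : {p : HeightOneSpectrum (𝓞 F) | ∃ Q : HeightOneSpectrum (𝓞 M),
      Q.asIdeal.under (𝓞 F) = p.asIdeal ∧ δ ∈ Q.asIdeal}.Finite := by
    have hfin := (finite_primes_containing δ hδ0).to_subtype
    set S := {p : HeightOneSpectrum (𝓞 F) | ∃ Q : HeightOneSpectrum (𝓞 M),
      Q.asIdeal.under (𝓞 F) = p.asIdeal ∧ δ ∈ Q.asIdeal} with hS
    let u : S → {Q : HeightOneSpectrum (𝓞 M) | δ ∈ Q.asIdeal} :=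
      fun p => ⟨p.2.choose, p.2.choose_spec.2⟩
    have hu : Function.Injective u := by
      intro p q h
      have h' : p.2.choose = q.2.choose := congrArg Subtype.val h
      apply Subtype.ext
      apply HeightOneSpectrum.ext
      rw [← p.2.choose_spec.1, ← q.2.choose_spec.1, h']
    have := Finite.of_injective u hu
    exact Set.toFinite S
  obtain ⟨p, hpT, hp⟩ := exists_no_same_norm σ hσ (hfin1.toFinset ∪ hfin2.toFinset)
  have hp1 : ((N.factorial : ℕ) : 𝓞 F) ∉ p.asIdeal := fun h =>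
    hpT (Finset.mem_union_left _ (hfin1.mem_toFinset.2 h))
  have hp2 : ∀ Q : HeightOneSpectrum (𝓞 M), Q.asIdeal.under (𝓞 F) = p.asIdeal → δ ∉ Q.asIdeal :=
    fun Q hQ h => hpT (Finset.mem_union_right _ (hfin2.mem_toFinset.2 ⟨Q, hQ, h⟩))
  have hpmax : p.asIdeal.IsMaximal := p.isMaximal
  obtain ⟨Q, hQmax, hQp⟩ := Ideal.exists_ideal_over_maximal_of_isIntegral (S := 𝓞 M) p.asIdeal
    (by
      rw [(RingHom.injective_iff_ker_eq_bot _).1 (FaithfulSMul.algebraMap_injective (𝓞 F) (𝓞 M))]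
      exact bot_le)
  have hQu : Q.under (𝓞 F) = p.asIdeal := hQp
  have hQ0 : Q ≠ ⊥ := by
    intro h
    apply p.ne_bot
    rw [← hQu, h]
    exact Ideal.under_bot _ _
  let QQ : HeightOneSpectrum (𝓞 M) := ⟨Q, hQmax.isPrime, hQ0⟩
  have hδQ : δ ∉ Q := hp2 QQ hQu
  -- the prime of `F'` below `Q`
  have hPprime : (Q.under (𝓞 F')).IsPrime := by
    have := hQmax.isPrime
    exact Ideal.IsPrime.under _ Q
  have hPu : (Q.under (𝓞 F')).under (𝓞 F) = p.asIdeal := by
    rw [Ideal.under_under, hQu]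
  have hP0 : Q.under (𝓞 F') ≠ ⊥ := by
    intro h
    apply p.ne_bot
    rw [← hPu, h]
    exact Ideal.under_bot _ _
  let P : HeightOneSpectrum (𝓞 F') := ⟨Q.under (𝓞 F'), hPprime, hP0⟩
  have hPN : Ideal.absNorm P.asIdeal ≠ Ideal.absNorm p.asIdeal := hp P hPu
  have hfinQ : Finite (𝓞 M ⧸ Q) := Ideal.finiteQuotientOfFreeOfNeBot _ hQ0
  have hQprime : Q.IsPrime := hQmax.isPrime
  have hcardp : Nat.card (𝓞 F ⧸ Q.under (𝓞 F)) = Ideal.absNorm p.asIdeal := by
    rw [hQu, Ideal.absNorm_apply, Submodule.cardQuot_apply]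
  -- relative Frobenius
  obtain ⟨τ, hτ⟩ := IsArithFrobAt.exists_of_isInvariant (𝓞 F) (M ≃ₐ[F] M) Q
  have hτ' : ∀ x : 𝓞 M, τ • x - x ^ (Ideal.absNorm p.asIdeal) ∈ Q := by
    intro x
    have := hτ x
    rwa [hcardp] at this
  let τ' : M ≃ₐ[ℚ] M := τ.restrictScalars ℚ
  have hττ' : ∀ x : 𝓞 M, τ' • x = τ • x := fun x => rfl
  have hτ'mem : τ' ∈ Subgroup.zpowers g := by
    have h1 : τ' ∈ F.fixingSubgroup := by
      rw [IntermediateField.mem_fixingSubgroup_iff]
      intro x hx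
      exact τ.commutes ⟨x, hx⟩
    rwa [hFdef, IntermediateField.fixingSubgroup_fixedField] at h1
  obtain ⟨j, hj⟩ : ∃ j : ℕ, g ^ j = τ' := by
    have := mem_powers_iff_mem_zpowers.2 hτ'mem
    exact Submonoid.mem_powers_iff _ _ |>.1 this
  -- residue fields
  have hNp1 : 1 < Ideal.absNorm p.asIdeal := by
    have h0 : Ideal.absNorm p.asIdeal ≠ 0 := by
      rw [Ne, Ideal.absNorm_eq_zero_iff]; exact p.ne_bot
    have h1 : Ideal.absNorm p.asIdeal ≠ 1 := by
      rw [Ne, Ideal.absNorm_eq_one_iff]; exact hpmax.ne_top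
    omega
  have hjodd : Odd j := by
    by_contra hjn
    rw [Nat.not_odd_iff_even] at hjn
    obtain ⟨i, hi⟩ := hjn
    apply hPN
    have hfix : ∀ x ∈ F', τ' x = x := by
      intro x hx
      have h1 : τ' ∈ F'.fixingSubgroup := by
        rw [hF'def, IntermediateField.fixingSubgroup_fixedField, ← hj, hi, ← two_mul, pow_mul]
        exact Subgroup.npow_mem_zpowers _ _
      exact (IntermediateField.mem_fixingSubgroup_iff _ _).1 h1 x hx
    have hPmax : P.asIdeal.IsMaximal := P.isMaximal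
    have hfinP : Finite (𝓞 F' ⧸ P.asIdeal) := Ideal.finiteQuotientOfFreeOfNeBot _ P.ne_bot
    have hfinp : Finite (𝓞 F ⧸ p.asIdeal) := Ideal.finiteQuotientOfFreeOfNeBot _ p.ne_bot
    let _ := Ideal.Quotient.field P.asIdeal
    have hpow : ∀ y : 𝓞 F' ⧸ P.asIdeal, y ^ (Ideal.absNorm p.asIdeal) = y := by
      intro y
      obtain ⟨z, rfl⟩ := Ideal.Quotient.mk_surjective y
      rw [← map_pow, Ideal.Quotient.eq, ← neg_sub, neg_mem_iff]
      show z - z ^ _ ∈ Q.under (𝓞 F')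
      rw [Ideal.under, Ideal.mem_comap, map_sub, map_pow]
      have h1 := hτ' (algebraMap (𝓞 F') (𝓞 M) z)
      have h2 : τ • (algebraMap (𝓞 F') (𝓞 M) z) = algebraMap (𝓞 F') (𝓞 M) z := by
        apply RingOfIntegers.ext
        exact hfix z.1.1 z.1.2
      rwa [h2] at h1
    have hle1 : Nat.card (𝓞 F' ⧸ P.asIdeal) ≤ Ideal.absNorm p.asIdeal :=
      card_le_of_pow_eq hNp1 hpow
    have hle2 : Nat.card (𝓞 F ⧸ p.asIdeal) ≤ Nat.card (𝓞 F' ⧸ P.asIdeal) := by
      have hlec : p.asIdeal ≤ P.asIdeal.comap (algebraMap (𝓞 F) (𝓞 F')) := by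
        rw [← hPu]
      refine Nat.card_le_card_of_injective
        (Ideal.quotientMap P.asIdeal (algebraMap (𝓞 F) (𝓞 F')) hlec) ?_
      apply Ideal.quotientMap_injective'
      rw [← hPu]
    rw [Ideal.absNorm_apply, Submodule.cardQuot_apply]
    rw [Ideal.absNorm_apply, Submodule.cardQuot_apply] at hle1
    rw [Ideal.absNorm_apply, Submodule.cardQuot_apply]
    omega
  -- the residue characteristic
  obtain ⟨q, f, hf0, hqp, hq, hNq⟩ := Ideal.exists_prime_and_absNorm_eq_pow p.asIdeal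
  have hqQ : ((q : ℕ) : 𝓞 M) ∈ Q := by
    have h1 : ((q : ℕ) : 𝓞 F) ∈ Q.under (𝓞 F) := by rw [hQu]; exact hqp
    rw [Ideal.under, Ideal.mem_comap, map_natCast] at h1
    exact h1
  have hNq' : N < q := by
    by_contra hle'
    apply hp1
    have h1 : q ∣ N.factorial := (hq.dvd_factorial).2 (not_lt.1 hle')
    exact p.asIdeal.mem_of_dvd (by exact_mod_cast Nat.cast_dvd_cast h1) hqp
  have hcardZ : Nat.card (ℤ ⧸ Q.under ℤ) = q := by
    have h1 : (q : ℤ) ∈ Q.under ℤ := by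
      rw [Ideal.under, Ideal.mem_comap]
      simpa using hqQ
    have h2 : (Q.under ℤ).IsPrime := Ideal.IsPrime.under _ Q
    have h3 : Q.under ℤ ≠ ⊥ := by
      intro h
      rw [h, Ideal.mem_bot] at h1
      exact hq.ne_zero (by exact_mod_cast h1)
    have h4 : (Ideal.absNorm (Q.under ℤ)).Prime := by
      rw [Int.prime_absNorm]
      exact Ideal.prime_of_isPrime h3 h2
    have h5 : (q : ℤ) ∈ Ideal.span {((Ideal.absNorm (Q.under ℤ) : ℕ) : ℤ)} := by
      rw [Int.ideal_span_absNorm_eq_self]; exact h1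
    rw [Ideal.mem_span_singleton] at h5
    have h6 : Ideal.absNorm (Q.under ℤ) ∣ q := by exact_mod_cast h5
    have h7 := (Nat.prime_dvd_prime_iff_eq h4 hq).1 h6
    rw [Ideal.absNorm_apply, Submodule.cardQuot_apply] at h7
    exact h7
  obtain ⟨h, hh⟩ := IsArithFrobAt.exists_of_isInvariant ℤ (M ≃ₐ[ℚ] M) Q
  have hh' : ∀ x : 𝓞 M, h • x - x ^ q ∈ Q := by
    intro x
    have := hh x
    rwa [hcardZ] at this
  refine ⟨q, hq, hNq', Q, hQmax, hqQ, h, hh', f, j, hjodd, ?_⟩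
  -- the two Frobenius elements agree up to inertia, which is trivial
  by_contra hne
  apply hδQ
  apply hδ Q (h ^ f * τ'⁻¹)
  · intro h1
    apply hne
    rw [hj]
    exact mul_inv_eq_one.1 h1
  · intro x
    have h1 := iterate_congr Q h q hh' f (τ'⁻¹ • x)
    have h2 : τ' • (τ'⁻¹ • x) - (τ'⁻¹ • x) ^ (Ideal.absNorm p.asIdeal) ∈ Q := hτ' (τ'⁻¹ • x)
    rw [smul_inv_smul, hNq] at h2
    have h3 := Q.sub_mem h1 h2
    rw [sub_sub_sub_cancel_right] at h3
    rwa [mul_smul]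

/-- The same for an element outside a subgroup of index two: then `f` is odd as well and the
Frobenius `h` is outside the subgroup. -/
theorem exists_frob_odd (Γ : Subgroup (M ≃ₐ[ℚ] M)) (hΓ : Γ.index = 2) (g : M ≃ₐ[ℚ] M)
    (hg : g ∉ Γ) (a : ℕ) (ha : g ^ (2 ^ a) = 1) (N : ℕ) :
    ∃ q : ℕ, q.Prime ∧ N < q ∧ ∃ Q : Ideal (𝓞 M), Q.IsMaximal ∧ ((q : ℕ) : 𝓞 M) ∈ Q ∧
      ∃ h : M ≃ₐ[ℚ] M, h ∉ Γ ∧ (∀ x : 𝓞 M, h • x - x ^ q ∈ Q) ∧
        ∃ f j : ℕ, Odd f ∧ Odd j ∧ h ^ f = g ^ j := by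
  have hg1 : g ≠ 1 := by
    rintro rfl
    exact hg Γ.one_mem
  obtain ⟨q, hq, hN, Q, hQ, hqQ, h, hh, f, j, hj, hfj⟩ := exists_frob g hg1 a ha N
  have hsq : ∀ x : M ≃ₐ[ℚ] M, x ^ 2 ∈ Γ := fun x => by
    rw [sq]
    exact Subgroup.mul_self_mem_of_index_two hΓ x
  have hgj : g ^ j ∉ Γ := by
    obtain ⟨i, rfl⟩ := hj
    intro hmem
    apply hg
    rw [pow_succ, pow_mul] at hmem
    exact (Γ.mul_mem_cancel_left (Γ.pow_mem (hsq g) i)).1 hmem
  have hf : Odd f := by
    by_contra hf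
    rw [Nat.not_odd_iff_even] at hf
    obtain ⟨i, rfl⟩ := hf
    apply hgj
    rw [← hfj, ← two_mul, pow_mul]
    exact Γ.pow_mem (hsq h) i
  refine ⟨q, hq, hN, Q, hQ, hqQ, h, ?_, hh, f, j, hf, hj, hfj⟩
  intro hmem
  apply hgj
  rw [← hfj]
  exact Γ.pow_mem hmem f

end Pool.Agent.Lib.MP_d0f9e0_co.FD
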