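import Mathlib

/-!
# No extension of number fields splits almost all primes

If `F`, `F'` are number fields there are no two injective maps with disjoint images from a cofinite
set of primes of `F` to the primes of `F'` which preserve the absolute norms: the Dedekind zeta
function of `F'` would have a pole of order at least two at `1`.
-/

open NumberField IsDedekindDomain Filter Topology
open scoped ENNReal

namespace Pool.Agent.MP_d0f9e0_co.FD

noncomputable section

section Mult

variable {P P' : Type*}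

/-- the sum over all multisets supported in `S` of the product of the weights -/
def zS (w : P → ℝ≥0∞) (S : Set P) : ℝ≥0∞ :=
  ∑' m : {m : Multiset P // ∀ x ∈ m, x ∈ S}, (m.1.map w).prod

theorem zS_insert_le (w : P → ℝ≥0∞) (S : Set P) (p : P) :
    zS w (insert p S) ≤ (∑' k : ℕ, w p ^ k) * zS w S := by
  classical
  have h1 : (∑' k : ℕ, w p ^ k) * zS w S
      = ∑' x : ℕ × {m : Multiset P // ∀ x ∈ m, x ∈ S}, w p ^ x.1 * (x.2.1.map w).prod := by
    unfold zS
    rw [← ENNReal.tsum_mul_right]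
    rw [ENNReal.tsum_prod (f := fun (k : ℕ) (m : {m : Multiset P // ∀ x ∈ m, x ∈ S}) =>
      w p ^ k * (m.1.map w).prod)]
    refine tsum_congr fun k => ?_
    rw [ENNReal.tsum_mul_left]
  rw [h1]
  let φ : {m : Multiset P // ∀ x ∈ m, x ∈ insert p S} →
      ℕ × {m : Multiset P // ∀ x ∈ m, x ∈ S} := fun m =>
    (m.1.count p, ⟨m.1.filter (fun x => ¬ x = p), fun x hx => by
      rw [Multiset.mem_filter] at hx
      rcases m.2 x hx.1 with h | h
      · exact absurd h hx.2
      · exact h⟩)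
  have hdec : ∀ m : Multiset P,
      m = Multiset.replicate (m.count p) p + m.filter (fun x => ¬ x = p) := by
    intro m
    rw [← Multiset.filter_eq', Multiset.filter_add_not]
  have hφ : Function.Injective φ := by
    intro m m' h
    have h1 : m.1.count p = m'.1.count p := congrArg Prod.fst h
    have h2 : m.1.filter (fun x => ¬ x = p) = m'.1.filter (fun x => ¬ x = p) :=
      congrArg Subtype.val (congrArg Prod.snd h)
    apply Subtype.ext
    rw [hdec m.1, hdec m'.1, h1, h2]
  have hw : ∀ m : {m : Multiset P // ∀ x ∈ m, x ∈ insert p S},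
      (m.1.map w).prod = w p ^ (φ m).1 * ((φ m).2.1.map w).prod := by
    intro m
    have := congrArg (fun t => (Multiset.map w t).prod) (hdec m.1)
    simp only [Multiset.map_add, Multiset.prod_add, Multiset.map_replicate,
      Multiset.prod_replicate] at this
    exact this
  unfold zS
  calc ∑' m : {m : Multiset P // ∀ x ∈ m, x ∈ insert p S}, (m.1.map w).prod
      = ∑' m : {m : Multiset P // ∀ x ∈ m, x ∈ insert p S},
          w p ^ (φ m).1 * ((φ m).2.1.map w).prod := tsum_congr hw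
    _ ≤ _ := ENNReal.tsum_comp_le_tsum_of_injective hφ
        (fun x : ℕ × {m : Multiset P // ∀ x ∈ m, x ∈ S} => w p ^ x.1 * (x.2.1.map w).prod)

theorem zS_compl_le (w : P → ℝ≥0∞) (hw : ∀ p, w p ≤ 2⁻¹) (T : Finset P) :
    zS w Set.univ ≤ 2 ^ T.card * zS w ((T : Set P)ᶜ) := by
  classical
  induction T using Finset.induction_on with
  | empty => simp
  | insert p T hp ih =>
    refine ih.trans ?_
    have h1 : ((T : Set P)ᶜ) = insert p (((insert p T : Finset P) : Set P)ᶜ) := by
      ext x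
      simp only [Set.mem_compl_iff, Finset.mem_coe, Set.mem_insert_iff, Finset.coe_insert]
      by_cases hx : x = p
      · subst hx; simp [hp]
      · simp [hx]
    have h2 : (∑' k : ℕ, w p ^ k) ≤ 2 := by
      rw [ENNReal.tsum_geometric]
      rw [ENNReal.inv_le_iff_inv_le]
      have : (1 : ℝ≥0∞) - 2⁻¹ ≤ 1 - w p := tsub_le_tsub_left (hw p) 1
      rwa [ENNReal.one_sub_inv_two] at this
    rw [h1, Finset.card_insert_of_notMem hp, pow_succ, mul_assoc]
    refine mul_le_mul_right ?_ _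
    refine (zS_insert_le w _ p).trans ?_
    exact mul_le_mul_left h2 _

theorem zS_sq_le (w : P → ℝ≥0∞) (w' : P' → ℝ≥0∞) (S : Set P) (f g : P → P')
    (hf : Set.InjOn f S) (hg : Set.InjOn g S) (hfg : ∀ x ∈ S, ∀ y ∈ S, f x ≠ g y)
    (hwf : ∀ x ∈ S, w' (f x) = w x) (hwg : ∀ x ∈ S, w' (g x) = w x) :
    zS w S * zS w S ≤ zS w' Set.univ := by
  classical
  have h1 : zS w S * zS w S
      = ∑' x : {m : Multiset P // ∀ x ∈ m, x ∈ S} × {m : Multiset P // ∀ x ∈ m, x ∈ S},
          (x.1.1.map w).prod * (x.2.1.map w).prod := by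
    rw [ENNReal.tsum_prod (f := fun (m m' : {m : Multiset P // ∀ x ∈ m, x ∈ S}) =>
      (m.1.map w).prod * (m'.1.map w).prod)]
    unfold zS
    rw [← ENNReal.tsum_mul_right]
    refine tsum_congr fun k => ?_
    rw [ENNReal.tsum_mul_left]
  rw [h1]
  let φ : {m : Multiset P // ∀ x ∈ m, x ∈ S} × {m : Multiset P // ∀ x ∈ m, x ∈ S} →
      {m : Multiset P' // ∀ x ∈ m, x ∈ (Set.univ : Set P')} := fun m =>
    ⟨m.1.1.map f + m.2.1.map g, fun _ _ => Set.mem_univ _⟩
  have hinjmap : ∀ (h : P → P'), Set.InjOn h S → ∀ m m' : Multiset P, (∀ x ∈ m, x ∈ S) →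
      (∀ x ∈ m', x ∈ S) → m.map h = m'.map h → m = m' := by
    intro h hh m
    induction m using Multiset.induction_on with
    | empty =>
      intro m' _ _ h3
      rw [Multiset.map_zero] at h3
      exact (Multiset.map_eq_zero.mp h3.symm).symm
    | cons a m ih =>
      intro m' hm hm' h3
      have ha : h a ∈ m'.map h := by rw [← h3]; simp
      obtain ⟨b, hb, hab⟩ := Multiset.mem_map.mp ha
      have hba : b = a := hh (hm' b hb) (hm a (Multiset.mem_cons_self a m)) hab
      subst hba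
      obtain ⟨m'', rfl⟩ := Multiset.exists_cons_of_mem hb
      rw [Multiset.map_cons, Multiset.map_cons, Multiset.cons_inj_right] at h3
      rw [ih m'' (fun x hx => hm x (Multiset.mem_cons_of_mem hx))
        (fun x hx => hm' x (Multiset.mem_cons_of_mem hx)) h3]
  have hφ : Function.Injective φ := by
    intro m m' h
    have h0 : m.1.1.map f + m.2.1.map g = m'.1.1.map f + m'.2.1.map g := congrArg Subtype.val h
    have key : ∀ (a b : Multiset P), (∀ x ∈ a, x ∈ S) → (∀ x ∈ b, x ∈ S) →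
        (a.map f + b.map g).filter (fun y => y ∈ f '' S) = a.map f := by
      intro a b ha hb
      rw [Multiset.filter_add]
      have e1 : (a.map f).filter (fun y => y ∈ f '' S) = a.map f := by
        rw [Multiset.filter_eq_self]
        intro y hy
        obtain ⟨x, hx, rfl⟩ := Multiset.mem_map.mp hy
        exact ⟨x, ha x hx, rfl⟩
      have e2 : (b.map g).filter (fun y => y ∈ f '' S) = 0 := by
        rw [Multiset.filter_eq_nil]
        rintro y hy ⟨z, hz, hzy⟩
        obtain ⟨x, hx, rfl⟩ := Multiset.mem_map.mp hy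
        exact hfg z hz x (hb x hx) hzy
      rw [e1, e2, add_zero]
    have h1 : m.1.1.map f = m'.1.1.map f := by
      rw [← key m.1.1 m.2.1 m.1.2 m.2.2, h0, key m'.1.1 m'.2.1 m'.1.2 m'.2.2]
    have h2 : m.2.1.map g = m'.2.1.map g := by
      rw [h1] at h0
      exact add_left_cancel h0
    refine Prod.ext (Subtype.ext ?_) (Subtype.ext ?_)
    · exact hinjmap f hf _ _ m.1.2 m'.1.2 h1
    · exact hinjmap g hg _ _ m.2.2 m'.2.2 h2
  have hw : ∀ m : {m : Multiset P // ∀ x ∈ m, x ∈ S} × {m : Multiset P // ∀ x ∈ m, x ∈ S},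
      (m.1.1.map w).prod * (m.2.1.map w).prod = ((φ m).1.map w').prod := by
    intro m
    have e1 : (m.1.1.map f).map w' = m.1.1.map w := by
      rw [Multiset.map_map]
      exact Multiset.map_congr rfl fun x hx => hwf x (m.1.2 x hx)
    have e2 : (m.2.1.map g).map w' = m.2.1.map w := by
      rw [Multiset.map_map]
      exact Multiset.map_congr rfl fun x hx => hwg x (m.2.2 x hx)
    change _ = (Multiset.map w' (m.1.1.map f + m.2.1.map g)).prod
    rw [Multiset.map_add, Multiset.prod_add, e1, e2]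
  rw [tsum_congr hw]
  exact ENNReal.tsum_comp_le_tsum_of_injective hφ
    (fun x : {m : Multiset P' // ∀ x ∈ m, x ∈ (Set.univ : Set P')} => (x.1.map w').prod)

end Mult

section Zeta

variable (F : Type*) [Field F] [NumberField F]

/-- the weight of a prime ideal -/
def wt (s : ℝ) (p : HeightOneSpectrum (𝓞 F)) : ℝ≥0∞ :=
  ENNReal.ofReal ((Ideal.absNorm p.asIdeal : ℝ) ^ (-s))

theorem two_le_absNorm (p : HeightOneSpectrum (𝓞 F)) : 2 ≤ Ideal.absNorm p.asIdeal := by
  have h0 : Ideal.absNorm p.asIdeal ≠ 0 := by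
    rw [Ne, Ideal.absNorm_eq_zero_iff]; exact p.ne_bot
  have h1 : Ideal.absNorm p.asIdeal ≠ 1 := by
    rw [Ne, Ideal.absNorm_eq_one_iff]; exact p.isPrime.ne_top
  omega

theorem wt_le (s : ℝ) (hs : 1 ≤ s) (p : HeightOneSpectrum (𝓞 F)) : wt F s p ≤ 2⁻¹ := by
  have h2 : (2 : ℝ) ≤ (Ideal.absNorm p.asIdeal : ℝ) := by exact_mod_cast two_le_absNorm F p
  unfold wt
  rw [show (2⁻¹ : ℝ≥0∞) = ENNReal.ofReal (2⁻¹ : ℝ) by
    rw [ENNReal.ofReal_inv_of_pos (by norm_num)]; norm_num]
  apply ENNReal.ofReal_le_ofReal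
  rw [Real.rpow_neg (by linarith)]
  apply inv_anti₀ (by norm_num)
  calc (2 : ℝ) ≤ (Ideal.absNorm p.asIdeal : ℝ) := h2
    _ = (Ideal.absNorm p.asIdeal : ℝ) ^ (1 : ℝ) := by rw [Real.rpow_one]
    _ ≤ _ := Real.rpow_le_rpow_of_exponent_le (by linarith) hs

/-- the product of a multiset of primes -/
def prodI (m : Multiset (HeightOneSpectrum (𝓞 F))) : {I : Ideal (𝓞 F) // I ≠ ⊥} :=
  ⟨(m.map (fun p => p.asIdeal)).prod, by
    intro h
    rw [← Ideal.zero_eq_bot, Multiset.prod_eq_zero_iff] at h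
    obtain ⟨p, _, hp⟩ := Multiset.mem_map.mp h
    exact p.ne_bot hp⟩

theorem prodI_bijective : Function.Bijective (prodI F) := by
  constructor
  · intro m m' h
    have h1 : (m.map (fun p => p.asIdeal)).prod = (m'.map (fun p => p.asIdeal)).prod :=
      congrArg Subtype.val h
    have h2 : ∀ m : Multiset (HeightOneSpectrum (𝓞 F)),
        UniqueFactorizationMonoid.normalizedFactors (m.map (fun p => p.asIdeal)).prod
          = m.map (fun p => p.asIdeal) := by
      intro m
      apply UniqueFactorizationMonoid.normalizedFactors_prod_of_prime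
      intro p hp
      obtain ⟨q, _, rfl⟩ := Multiset.mem_map.mp hp
      exact q.prime
    have h3 : m.map (fun p => p.asIdeal) = m'.map (fun p => p.asIdeal) := by
      rw [← h2 m, h1, h2 m']
    exact Multiset.map_injective (fun a b h => HeightOneSpectrum.ext h) h3
  · rintro ⟨I, hI⟩
    refine ⟨(UniqueFactorizationMonoid.normalizedFactors I).pmap
      (fun p hp => (⟨p, Ideal.isPrime_of_prime hp, hp.ne_zero⟩ : HeightOneSpectrum (𝓞 F)))
      (fun p hp => UniqueFactorizationMonoid.prime_of_normalized_factor p hp), ?_⟩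
    apply Subtype.ext
    change (Multiset.map _ (Multiset.pmap _ _ _)).prod = I
    rw [Multiset.map_pmap]
    conv_rhs => rw [← Ideal.prod_normalizedFactors_eq_self hI]
    congr 1
    rw [Multiset.pmap_eq_map_attach]
    simp

theorem weight_prodI (s : ℝ) (m : Multiset (HeightOneSpectrum (𝓞 F))) :
    (m.map (wt F s)).prod = ENNReal.ofReal ((Ideal.absNorm (prodI F m).1 : ℝ) ^ (-s)) := by
  change _ = ENNReal.ofReal ((Ideal.absNorm (m.map (fun p => p.asIdeal)).prod : ℝ) ^ (-s))
  induction m using Multiset.induction_on with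
  | empty => simp
  | cons p m ih =>
    rw [Multiset.map_cons, Multiset.prod_cons, ih, Multiset.map_cons, Multiset.prod_cons,
      map_mul, Nat.cast_mul, Real.mul_rpow (Nat.cast_nonneg _) (Nat.cast_nonneg _),
      ENNReal.ofReal_mul (by positivity)]
    rfl

theorem zS_univ_eq (s : ℝ) :
    zS (wt F s) Set.univ
      = ∑' n : ℕ, ENNReal.ofReal (if n = 0 then 0 else
          (Nat.card {I : Ideal (𝓞 F) // Ideal.absNorm I = n} : ℝ) / (n : ℝ) ^ s) := by
  classical
  let e1 : Multiset (HeightOneSpectrum (𝓞 F)) ≃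
      {m : Multiset (HeightOneSpectrum (𝓞 F)) // ∀ x ∈ m, x ∈ (Set.univ : Set _)} :=
    ⟨fun m => ⟨m, fun _ _ => Set.mem_univ _⟩, fun m => m.1, fun _ => rfl, fun _ => rfl⟩
  have h1 : zS (wt F s) Set.univ
      = ∑' m : Multiset (HeightOneSpectrum (𝓞 F)), (m.map (wt F s)).prod := by
    unfold zS
    rw [← e1.tsum_eq]
    rfl
  have h2 : ∑' m : Multiset (HeightOneSpectrum (𝓞 F)), (m.map (wt F s)).prod
      = ∑' I : {I : Ideal (𝓞 F) // I ≠ ⊥}, ENNReal.ofReal ((Ideal.absNorm I.1 : ℝ) ^ (-s)) := by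
    rw [← (Equiv.ofBijective _ (prodI_bijective F)).tsum_eq]
    exact tsum_congr fun m => weight_prodI F s m
  let N : {I : Ideal (𝓞 F) // I ≠ ⊥} → ℕ := fun I => Ideal.absNorm I.1
  have h3 : ∑' I : {I : Ideal (𝓞 F) // I ≠ ⊥}, ENNReal.ofReal ((Ideal.absNorm I.1 : ℝ) ^ (-s))
      = ∑' n : ℕ, ∑' x : {I // N I = n}, ENNReal.ofReal ((n : ℝ) ^ (-s)) := by
    rw [← (Equiv.sigmaFiberEquiv N).tsum_eq, ENNReal.tsum_sigma']
    refine tsum_congr fun n => tsum_congr fun x => ?_
    change ENNReal.ofReal ((N x.1 : ℝ) ^ (-s)) = _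
    rw [x.2]
  rw [h1, h2, h3]
  refine tsum_congr fun n => ?_
  rw [ENNReal.tsum_const]
  by_cases hn : n = 0
  · subst hn
    have : IsEmpty {I // N I = 0} := by
      constructor
      rintro ⟨I, hI⟩
      exact I.2 (Ideal.absNorm_eq_zero_iff.mp hI)
    rw [if_pos rfl, (ENat.card_eq_zero_iff_empty _).mpr this]
    simp
  · rw [if_neg hn]
    have hfin : Finite {I : Ideal (𝓞 F) // Ideal.absNorm I = n} :=
      Ideal.finite_setOfPred_absNorm_eq n
    let e : {I // N I = n} ≃ {I : Ideal (𝓞 F) // Ideal.absNorm I = n} :=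
      { toFun := fun x => ⟨x.1.1, x.2⟩
        invFun := fun x => ⟨⟨x.1, fun h => hn (by rw [← x.2, h, Ideal.absNorm_bot])⟩, x.2⟩
        left_inv := fun _ => rfl
        right_inv := fun _ => rfl }
    rw [ENat.card_congr e, ENat.card_eq_coe_natCard]
    rw [div_eq_mul_inv, ENNReal.ofReal_mul (Nat.cast_nonneg _), ENNReal.ofReal_natCast,
      Real.rpow_neg (Nat.cast_nonneg _)]
    rfl

theorem zeta_eq (s : ℝ) (h : dedekindZeta F s ≠ 0) :
    zS (wt F s) Set.univ = ENNReal.ofReal ‖dedekindZeta F s‖ := by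
  let r : ℕ → ℝ := fun n => if n = 0 then 0 else
          (Nat.card {I : Ideal (𝓞 F) // Ideal.absNorm I = n} : ℝ) / (n : ℝ) ^ s
  have hr0 : ∀ n, 0 ≤ r n := by
    intro n
    simp only [r]
    split_ifs
    · exact le_rfl
    · positivity
  have hterm : ∀ n, LSeries.term (fun n ↦ (Nat.card {I : Ideal (𝓞 F) // Ideal.absNorm I = n} : ℂ))
      (s : ℂ) n = ((r n : ℝ) : ℂ) := by
    intro n
    rw [LSeries.term_def]
    simp only [r]
    split_ifs with h0
    · simp
    · push_cast
      rw [Complex.ofReal_cpow (Nat.cast_nonneg _)]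
      simp
  have hz : dedekindZeta F s = ∑' n, ((r n : ℝ) : ℂ) := by
    unfold dedekindZeta LSeries
    exact tsum_congr hterm
  have hsum : Summable (fun n => ((r n : ℝ) : ℂ)) := by
    by_contra hns
    rw [tsum_eq_zero_of_not_summable hns] at hz
    exact h hz
  have hsum' : Summable r := Complex.summable_ofReal.mp hsum
  rw [zS_univ_eq, hz, ← Complex.ofReal_tsum, Complex.norm_real, Real.norm_eq_abs,
    abs_of_nonneg (tsum_nonneg hr0), ENNReal.ofReal_tsum_of_nonneg hr0 hsum']

end Zeta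

/-- **Main statement**: there are no two injective norm preserving maps with disjoint images from a
cofinite set of primes of a number field to the primes of a number field. -/
theorem no_double (F F' : Type*) [Field F] [NumberField F] [Field F'] [NumberField F']
    (T : Finset (HeightOneSpectrum (𝓞 F)))
    (f g : HeightOneSpectrum (𝓞 F) → HeightOneSpectrum (𝓞 F'))
    (hf : ∀ x ∉ T, ∀ y ∉ T, f x = f y → x = y) (hg : ∀ x ∉ T, ∀ y ∉ T, g x = g y → x = y)
    (hfg : ∀ x ∉ T, ∀ y ∉ T, f x ≠ g y)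
    (hNf : ∀ x ∉ T, Ideal.absNorm (f x).asIdeal = Ideal.absNorm x.asIdeal)
    (hNg : ∀ x ∉ T, Ideal.absNorm (g x).asIdeal = Ideal.absNorm x.asIdeal) : False := by
  have key : ∀ s : ℝ, 1 ≤ s → zS (wt F s) Set.univ * zS (wt F s) Set.univ
      ≤ (2 ^ T.card * 2 ^ T.card) * zS (wt F' s) Set.univ := by
    intro s hs
    have h1 := zS_compl_le (wt F s) (wt_le F s hs) T
    have h2 : zS (wt F s) ((T : Set (HeightOneSpectrum (𝓞 F)))ᶜ)
        * zS (wt F s) ((T : Set (HeightOneSpectrum (𝓞 F)))ᶜ) ≤ zS (wt F' s) Set.univ := by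
      refine zS_sq_le (wt F s) (wt F' s) _ f g ?_ ?_ ?_ ?_ ?_
      · intro x hx y hy h; exact hf x hx y hy h
      · intro x hx y hy h; exact hg x hx y hy h
      · intro x hx y hy; exact hfg x hx y hy
      · intro x hx; unfold wt; rw [hNf x hx]
      · intro x hx; unfold wt; rw [hNg x hx]
    calc _ ≤ (2 ^ T.card * zS (wt F s) ((T : Set (HeightOneSpectrum (𝓞 F)))ᶜ))
          * (2 ^ T.card * zS (wt F s) ((T : Set (HeightOneSpectrum (𝓞 F)))ᶜ)) :=
          mul_le_mul' h1 h1
      _ = (2 ^ T.card * 2 ^ T.card) * (zS (wt F s) ((T : Set (HeightOneSpectrum (𝓞 F)))ᶜ)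
        * zS (wt F s) ((T : Set (HeightOneSpectrum (𝓞 F)))ᶜ)) := by ring
      _ ≤ _ := mul_le_mul_right h2 _
  have hr := tendsto_sub_one_mul_dedekindZeta_nhdsGT F
  have hr' := tendsto_sub_one_mul_dedekindZeta_nhdsGT F'
  have hne : ∀ᶠ s : ℝ in 𝓝[>] 1, dedekindZeta F s ≠ 0 := by
    have := hr.eventually_ne (Complex.ofReal_ne_zero.mpr (dedekindZeta_residue_ne_zero F))
    filter_upwards [this] with s hs h0
    exact hs (by rw [h0, mul_zero])
  have hne' : ∀ᶠ s : ℝ in 𝓝[>] 1, dedekindZeta F' s ≠ 0 := by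
    have := hr'.eventually_ne (Complex.ofReal_ne_zero.mpr (dedekindZeta_residue_ne_zero F'))
    filter_upwards [this] with s hs h0
    exact hs (by rw [h0, mul_zero])
  have hgt : ∀ᶠ s : ℝ in 𝓝[>] 1, 1 < s := eventually_mem_nhdsWithin
  have hineq : ∀ᶠ s : ℝ in 𝓝[>] 1, ‖((s : ℂ) - 1) * dedekindZeta F s‖ *
      ‖((s : ℂ) - 1) * dedekindZeta F s‖
      ≤ (2 ^ T.card * 2 ^ T.card) * ((s - 1) * ‖((s : ℂ) - 1) * dedekindZeta F' s‖) := by
    filter_upwards [hne, hne', hgt] with s h1 h2 h3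
    have := key s h3.le
    rw [zeta_eq F s h1, zeta_eq F' s h2, ← ENNReal.ofReal_mul (norm_nonneg _)] at this
    have e : ((2 : ℝ≥0∞) ^ T.card * 2 ^ T.card) * ENNReal.ofReal ‖dedekindZeta F' s‖
        = ENNReal.ofReal (((2 : ℝ) ^ T.card * 2 ^ T.card) * ‖dedekindZeta F' s‖) := by
      rw [ENNReal.ofReal_mul (by positivity), ENNReal.ofReal_mul (by positivity),
        ENNReal.ofReal_pow (by norm_num)]
      norm_num
    rw [e, ENNReal.ofReal_le_ofReal_iff (by positivity)] at this
    have h4 : ‖((s : ℂ) - 1)‖ = s - 1 := by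
      rw [← Complex.ofReal_one, ← Complex.ofReal_sub, Complex.norm_real, Real.norm_eq_abs,
        abs_of_pos (by linarith)]
    rw [norm_mul, norm_mul, h4]
    have h5 : 0 ≤ (s - 1) * (s - 1) := mul_self_nonneg _
    nlinarith [mul_le_mul_of_nonneg_left this h5]
  have hlim1 : Tendsto (fun s : ℝ => ‖((s : ℂ) - 1) * dedekindZeta F s‖ *
      ‖((s : ℂ) - 1) * dedekindZeta F s‖) (𝓝[>] 1)
      (𝓝 (‖(dedekindZeta_residue F : ℂ)‖ * ‖(dedekindZeta_residue F : ℂ)‖)) :=
    hr.norm.mul hr.norm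
  have hlim2 : Tendsto (fun s : ℝ => ((2 : ℝ) ^ T.card * 2 ^ T.card) *
      ((s - 1) * ‖((s : ℂ) - 1) * dedekindZeta F' s‖)) (𝓝[>] 1)
      (𝓝 (((2 : ℝ) ^ T.card * 2 ^ T.card) * ((1 - 1) * ‖(dedekindZeta_residue F' : ℂ)‖))) := by
    refine Tendsto.const_mul _ (Tendsto.mul ?_ hr'.norm)
    have : Tendsto (fun s : ℝ => s - 1) (𝓝 1) (𝓝 (1 - 1)) :=
      (continuous_id.sub continuous_const).tendsto 1
    exact this.mono_left nhdsWithin_le_nhds
  have hle := le_of_tendsto_of_tendsto hlim1 hlim2 hineq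
  rw [sub_self, zero_mul, mul_zero] at hle
  have hpos : 0 < ‖(dedekindZeta_residue F : ℂ)‖ := by
    rw [norm_pos_iff]
    exact Complex.ofReal_ne_zero.mpr (dedekindZeta_residue_ne_zero F)
  nlinarith [mul_pos hpos hpos]

end

end Pool.Agent.MP_d0f9e0_co.FD
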