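import Pool.Agent.Lib.MP_d0f9e0_co.FD.StepG

/-!
# From congruences at all places of `ℂ` over inert primes to the Frobenius law
-/

open scoped NumberField
open IsDedekindDomain NumberField

namespace Pool.Agent.Lib.MP_d0f9e0_co.FD

/-- a valuation subring of `ℂ` above a maximal ideal of `𝓞 M`, `M` a subfield of `ℂ` -/
theorem exists_place (M : IntermediateField ℚ ℂ) (Q : Ideal (𝓞 M)) (hQ : Q ≠ ⊤) :
    ∃ O : ValuationSubring ℂ, (∀ x : 𝓞 M, ((x : M) : ℂ) ∈ O) ∧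
      ∀ x : 𝓞 M, x ∈ Q → ((x : M) : ℂ) ∈ O.nonunits := by
  let f : 𝓞 M →+* ℂ := (algebraMap M ℂ).comp (algebraMap (𝓞 M) M)
  have hf : Function.Injective f := fun x y h =>
    RingOfIntegers.coe_injective ((algebraMap M ℂ).injective h)
  have hfr : Function.Injective f.rangeRestrict := by
    intro x y h
    have h1 : f x = f y := by
      rw [← RingHom.coe_rangeRestrict, h, RingHom.coe_rangeRestrict]
    exact hf h1
  let e : 𝓞 M ≃+* f.range := RingEquiv.ofBijective f.rangeRestrict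
    ⟨hfr, f.rangeRestrict_surjective⟩
  let I : Ideal f.range := Q.comap (e.symm : f.range →+* 𝓞 M)
  have hI : I ≠ ⊤ := by
    rw [Ne, Ideal.comap_eq_top_iff]
    exact hQ
  obtain ⟨O, hO1, hO2⟩ := Ideal.image_subset_nonunits_valuationSubring I hI
  refine ⟨O, fun x => hO1 ⟨x, rfl⟩, fun x hx => ?_⟩
  apply hO2
  refine ⟨e x, ?_, rfl⟩
  show e.symm (e x) ∈ Q
  rw [e.symm_apply_apply]
  exact hx

theorem mul_mem_nonunits {K : Type*} [Field K] {O : ValuationSubring K} {a b : K} (ha : a ∈ O)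
    (hb : b ∈ O.nonunits) : a * b ∈ O.nonunits := by
  rw [ValuationSubring.mem_nonunits_iff_exists_mem_maximalIdeal] at hb ⊢
  obtain ⟨hb1, hb2⟩ := hb
  exact ⟨O.mul_mem _ _ ha hb1, Ideal.mul_mem_left _ ⟨a, ha⟩ hb2⟩

theorem mul_mem_nonunits' {K : Type*} [Field K] {O : ValuationSubring K} {a b : K}
    (ha : a ∈ O.nonunits) (hb : b ∈ O) : a * b ∈ O.nonunits := by
  rw [mul_comm]
  exact mul_mem_nonunits hb ha

/-- congruent elements have congruent powers -/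
theorem sub_pow_mem_nonunits {K : Type*} [Field K] {O : ValuationSubring K} {a b : K}
    (ha : a ∈ O) (hb : b ∈ O) (h : a - b ∈ O.nonunits) (n : ℕ) : a ^ n - b ^ n ∈ O.nonunits := by
  have h1 : a ^ n - b ^ n = (a - b) * (∑ i ∈ Finset.range n, a ^ i * b ^ (n - 1 - i)) :=
    (Commute.mul_geom_sum₂ (Commute.all a b) n).symm
  rw [h1]
  refine mul_mem_nonunits' h ?_
  exact sum_mem (fun i _ => mul_mem (pow_mem ha i) (pow_mem hb _))

/-- units and nonunits -/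
theorem not_nonunit_of_notMem (M : IntermediateField ℚ ℂ) (Q : Ideal (𝓞 M)) (hQ : Q.IsMaximal)
    (O : ValuationSubring ℂ) (hO1 : ∀ x : 𝓞 M, ((x : M) : ℂ) ∈ O)
    (hO2 : ∀ x : 𝓞 M, x ∈ Q → ((x : M) : ℂ) ∈ O.nonunits) (d : 𝓞 M) (hd : d ∉ Q) :
    ((d : M) : ℂ)⁻¹ ∈ O ∧ ((d : M) : ℂ) ≠ 0 := by
  have h0 : ((d : M) : ℂ) ≠ 0 := by
    intro h
    apply hd
    have : d = 0 := by
      apply RingOfIntegers.coe_injective
      apply (algebraMap M ℂ).injective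
      simpa using h
    rw [this]
    exact Q.zero_mem
  refine ⟨?_, h0⟩
  by_contra hinv
  have h1 : ((d : M) : ℂ) ∈ O.nonunits := by
    rw [ValuationSubring.mem_nonunits_iff_or]
    exact Or.inr hinv
  obtain ⟨d', hd'⟩ := Ideal.IsMaximal.exists_inv hQ hd
  obtain ⟨i, hi, hdi⟩ := hd'
  have h2 : ((i : M) : ℂ) ∈ O.nonunits := hO2 i hi
  have h3 : ((d' : M) : ℂ) * ((d : M) : ℂ) + ((i : M) : ℂ) = 1 := by
    exact_mod_cast congrArg (fun z : 𝓞 M => ((z : M) : ℂ)) hdi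
  have h4 : ((d' : M) : ℂ) * ((d : M) : ℂ) ∈ O.nonunits := by
    exact mul_mem_nonunits (hO1 d') h1
  have h5 := O.nonunits.add_mem h4 h2
  rw [h3, ValuationSubring.mem_nonunits_iff, map_one] at h5
  exact lt_irrefl _ h5

/-- elements of `M` in the place are fractions -/
theorem exists_fraction (M : IntermediateField ℚ ℂ) [NumberField M] (Q : Ideal (𝓞 M))
    (hQ : Q.IsMaximal) (hQ0 : Q ≠ ⊥) (O : ValuationSubring ℂ)
    (hO1 : ∀ x : 𝓞 M, ((x : M) : ℂ) ∈ O)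
    (hO2 : ∀ x : 𝓞 M, x ∈ Q → ((x : M) : ℂ) ∈ O.nonunits) (x : M) (hx : (x : ℂ) ∈ O) :
    ∃ n d : 𝓞 M, d ∉ Q ∧ x * (d : M) = (n : M) := by
  let v : HeightOneSpectrum (𝓞 M) := ⟨Q, hQ.isPrime, hQ0⟩
  obtain ⟨n, ⟨d, hd⟩, h | h⟩ := v.exists_primeCompl_mul_eq_or_mul_eq x
  · exact ⟨n, d, hd, h⟩
  · have hd' : d ∉ Q := hd
    by_cases hn : n ∈ Q
    · exfalso
      have h1 : ((n : M) : ℂ) ∈ O.nonunits := hO2 n hn
      have h2 : (x : ℂ) * ((n : M) : ℂ) ∈ O.nonunits := mul_mem_nonunits hx h1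
      have h3 : (x : ℂ) * ((n : M) : ℂ) = ((d : M) : ℂ) := by
        have := congrArg (fun z : M => (z : ℂ)) h
        simpa using this
      rw [h3, ValuationSubring.mem_nonunits_iff_or] at h2
      obtain ⟨h4, h5⟩ := not_nonunit_of_notMem M Q hQ O hO1 hO2 d hd'
      rcases h2 with h2 | h2
      · exact h5 h2
      · exact h2 h4
    · have hn0 : (n : M) ≠ 0 := by
        intro h0
        apply hn
        have : n = 0 := RingOfIntegers.coe_injective (by simpa using h0)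
        rw [this]
        exact Q.zero_mem
      have hd0 : (d : M) ≠ 0 := by
        intro h0
        apply hd'
        have : d = 0 := RingOfIntegers.coe_injective (by simpa using h0)
        rw [this]
        exact Q.zero_mem
      refine ⟨d, n, hn, ?_⟩
      exact h

/-- a Frobenius at `Q` acts as the `q`-th power at the place -/
theorem frob_place (M : IntermediateField ℚ ℂ) [NumberField M] (Q : Ideal (𝓞 M))
    (hQ : Q.IsMaximal) (hQ0 : Q ≠ ⊥) (O : ValuationSubring ℂ)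
    (hO1 : ∀ x : 𝓞 M, ((x : M) : ℂ) ∈ O)
    (hO2 : ∀ x : 𝓞 M, x ∈ Q → ((x : M) : ℂ) ∈ O.nonunits) (h : M ≃ₐ[ℚ] M) (q : ℕ)
    (hh : ∀ x : 𝓞 M, h • x - x ^ q ∈ Q) (x : M) (hx : (x : ℂ) ∈ O) :
    ((h x : M) : ℂ) ∈ O ∧ ((h x : M) : ℂ) - (x : ℂ) ^ q ∈ O.nonunits := by
  obtain ⟨n, d, hd, hxd⟩ := exists_fraction M Q hQ hQ0 O hO1 hO2 x hx
  have hhd : h • d ∉ Q := by
    intro h1
    have h2 := Q.sub_mem h1 (hh d)
    rw [sub_sub_cancel] at h2
    exact hd (hQ.isPrime.mem_of_pow_mem _ h2)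
  obtain ⟨h4, h5⟩ := not_nonunit_of_notMem M Q hQ O hO1 hO2 (h • d) hhd
  have e1 : (h x) * ((h • d : 𝓞 M) : M) = ((h • n : 𝓞 M) : M) := by
    have := congrArg h hxd
    rw [map_mul] at this
    exact this
  have e2 : ((h x : M) : ℂ) * (((h • d : 𝓞 M) : M) : ℂ) = (((h • n : 𝓞 M) : M) : ℂ) := by
    rw [← e1]
    simp
  have e3 : ((h x : M) : ℂ) = (((h • n : 𝓞 M) : M) : ℂ) * (((h • d : 𝓞 M) : M) : ℂ)⁻¹ := by
    rw [← e2, mul_assoc, mul_inv_cancel₀ h5, mul_one]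
  have e4 : (x : ℂ) * ((d : M) : ℂ) = ((n : M) : ℂ) := by
    rw [← hxd]
    simp
  constructor
  · rw [e3]
    exact mul_mem (hO1 _) h4
  · have k1 : (((h • n - n ^ q : 𝓞 M) : M) : ℂ) ∈ O.nonunits := hO2 _ (hh n)
    have k2 : (((h • d - d ^ q : 𝓞 M) : M) : ℂ) ∈ O.nonunits := hO2 _ (hh d)
    have k3 : (((h • n - n ^ q : 𝓞 M) : M) : ℂ) - (x : ℂ) ^ q * (((h • d - d ^ q : 𝓞 M) : M) : ℂ)
        ∈ O.nonunits := sub_mem k1 (mul_mem_nonunits (pow_mem hx q) k2)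
    have k4 : (((h • n - n ^ q : 𝓞 M) : M) : ℂ) - (x : ℂ) ^ q * (((h • d - d ^ q : 𝓞 M) : M) : ℂ)
        = (((h x : M) : ℂ) - (x : ℂ) ^ q) * (((h • d : 𝓞 M) : M) : ℂ) := by
      have a1 : (((h • n - n ^ q : 𝓞 M) : M) : ℂ) = (((h • n : 𝓞 M) : M) : ℂ) - ((n : M) : ℂ) ^ q := by
        simp
      have a2 : (((h • d - d ^ q : 𝓞 M) : M) : ℂ) = (((h • d : 𝓞 M) : M) : ℂ) - ((d : M) : ℂ) ^ q := by
        simp
      rw [a1, a2, ← e2, ← e4]
      ring
    rw [k4] at k3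
    have k5 := mul_mem_nonunits' k3 h4
    rwa [mul_assoc, mul_inv_cancel₀ h5, mul_one] at k5

/-- the square of a Frobenius -/
theorem frob_place_sq (M : IntermediateField ℚ ℂ) [NumberField M] (Q : Ideal (𝓞 M))
    (hQ : Q.IsMaximal) (hQ0 : Q ≠ ⊥) (O : ValuationSubring ℂ)
    (hO1 : ∀ x : 𝓞 M, ((x : M) : ℂ) ∈ O)
    (hO2 : ∀ x : 𝓞 M, x ∈ Q → ((x : M) : ℂ) ∈ O.nonunits) (h : M ≃ₐ[ℚ] M) (q : ℕ)
    (hh : ∀ x : 𝓞 M, h • x - x ^ q ∈ Q) (x : M) (hx : (x : ℂ) ∈ O) :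
    ((h (h x) : M) : ℂ) - (x : ℂ) ^ (q ^ 2) ∈ O.nonunits := by
  obtain ⟨h1, h2⟩ := frob_place M Q hQ hQ0 O hO1 hO2 h q hh x hx
  obtain ⟨h3, h4⟩ := frob_place M Q hQ hQ0 O hO1 hO2 h q hh (h x) h1
  have h5 := sub_pow_mem_nonunits h1 (pow_mem hx q) h2 q
  have h6 := add_mem h4 h5
  rw [sub_add_sub_cancel, ← pow_mul, ← sq] at h6
  exact h6

/-- finitely many nonzero algebraic numbers are units at all places of large residue
characteristic (only the half needed here) -/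
theorem exists_bound (S : Finset ℂ) (hS : ∀ y ∈ S, IsAlgebraic ℚ y) :
    ∃ N : ℕ, ∀ q : ℕ, q.Prime → N < q → ∀ O : ValuationSubring ℂ, (q : ℂ) ∈ O.nonunits →
      ∀ y ∈ S, y ≠ 0 → y ∉ O.nonunits := by
  classical
  have key : ∀ y ∈ S, ∃ m : ℕ, ∀ q : ℕ, q.Prime → m < q → ∀ O : ValuationSubring ℂ,
      (q : ℂ) ∈ O.nonunits → y ≠ 0 → y ∉ O.nonunits := by
    intro y hy
    have h1 : IsAlgebraic ℤ y⁻¹ := by
      have := (hS y hy).inv
      exact (IsFractionRing.isAlgebraic_iff ℤ ℚ ℂ).2 this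
    obtain ⟨m, hm0, hm⟩ := h1.exists_integral_multiple
    refine ⟨m.natAbs, fun q hq hmq O hqO hy0 hyO => ?_⟩
    have h2 : m • y⁻¹ ∈ O := by
      have h3 : IsIntegral O (m • y⁻¹) := by
        obtain ⟨p, hp1, hp2⟩ := hm
        refine ⟨p.map (Int.castRingHom O), hp1.map _, ?_⟩
        rw [Polynomial.eval₂_map]
        have : (algebraMap O ℂ).comp (Int.castRingHom O) = algebraMap ℤ ℂ := RingHom.ext_int _ _
        rw [this]
        exact hp2
      obtain ⟨z, hz⟩ := IsIntegrallyClosed.isIntegral_iff.1 h3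
      rw [← hz]
      exact z.2
    have h3 : ((m : ℤ) : ℂ) ∈ O.nonunits := by
      have := mul_mem_nonunits h2 hyO
      rwa [zsmul_eq_mul, mul_assoc, inv_mul_cancel₀ hy0, mul_one] at this
    have hcop : IsCoprime (q : ℤ) m := by
      rw [Int.isCoprime_iff_gcd_eq_one, Int.gcd, Int.natAbs_natCast]
      refine (Nat.Prime.coprime_iff_not_dvd hq).2 (fun hd => ?_)
      have := Nat.le_of_dvd (Int.natAbs_pos.2 hm0) hd
      omega
    obtain ⟨u, w, huw⟩ := hcop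
    have h4 : ((u : ℤ) : ℂ) * ((q : ℕ) : ℂ) + ((w : ℤ) : ℂ) * ((m : ℤ) : ℂ) = 1 := by
      exact_mod_cast congrArg (fun n : ℤ => (n : ℂ)) huw
    have hint : ∀ k : ℤ, ((k : ℤ) : ℂ) ∈ O := fun k => intCast_mem O k
    have h5 := add_mem (mul_mem_nonunits (hint u) hqO) (mul_mem_nonunits (hint w) h3)
    rw [h4, ValuationSubring.mem_nonunits_iff, map_one] at h5
    exact lt_irrefl _ h5
  choose! m hm using key
  refine ⟨∑ y ∈ S, m y, fun q hq hN O hqO y hy hy0 => ?_⟩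
  exact hm y hy q hq (lt_of_le_of_lt (Finset.single_le_sum (fun _ _ => Nat.zero_le _) hy) hN) O
    hqO hy0

end Pool.Agent.Lib.MP_d0f9e0_co.FD
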