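import Pool.Agent.Lib.MP_d0f9e0_co.FD.NoSplit

/-!
# Primes of residue degree one and automorphisms

If `F'/F` has a nontrivial automorphism then outside every finite set there is a prime of `F`
such that no prime of `F'` above it has the same norm.
-/

open scoped ENNReal NumberField
open Pool.Agent.MP_d0f9e0_co.FD (no_double)
open IsDedekindDomain NumberField

namespace Pool.Agent.Lib.MP_d0f9e0_co.FD

variable {F F' : Type*} [Field F] [NumberField F] [Field F'] [NumberField F'] [Algebra F F']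

/-- action of an automorphism on primes of the ring of integers -/
noncomputable def actP (σ : F' ≃ₐ[F] F') (P : HeightOneSpectrum (𝓞 F')) :
    HeightOneSpectrum (𝓞 F') where
  asIdeal := P.asIdeal.comap (RingOfIntegers.mapAlgEquiv σ.symm : 𝓞 F' ≃ₐ[𝓞 F] 𝓞 F')
  isPrime := by
    have := P.isPrime
    exact Ideal.IsPrime.comap _
  ne_bot := by
    intro h
    apply P.ne_bot
    have hinj : Function.Surjective
        (RingOfIntegers.mapAlgEquiv σ.symm : 𝓞 F' ≃ₐ[𝓞 F] 𝓞 F') := AlgEquiv.surjective _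
    rw [eq_bot_iff]
    intro x hx
    obtain ⟨y, rfl⟩ := hinj x
    have : y ∈ P.asIdeal.comap (RingOfIntegers.mapAlgEquiv σ.symm : 𝓞 F' ≃ₐ[𝓞 F] 𝓞 F') := hx
    rw [h] at this
    have hy : y = 0 := by simpa using this
    simp [hy]

theorem mem_actP (σ : F' ≃ₐ[F] F') (P : HeightOneSpectrum (𝓞 F')) (x : 𝓞 F') :
    x ∈ (actP σ P).asIdeal ↔
      (RingOfIntegers.mapAlgEquiv σ.symm : 𝓞 F' ≃ₐ[𝓞 F] 𝓞 F') x ∈ P.asIdeal := Iff.rfl

theorem under_actP (σ : F' ≃ₐ[F] F') (P : HeightOneSpectrum (𝓞 F')) :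
    (actP σ P).asIdeal.under (𝓞 F) = P.asIdeal.under (𝓞 F) := by
  ext x
  simp only [Ideal.under, Ideal.mem_comap, mem_actP, AlgEquiv.commutes]

theorem absNorm_actP (σ : F' ≃ₐ[F] F') (P : HeightOneSpectrum (𝓞 F')) :
    Ideal.absNorm (actP σ P).asIdeal = Ideal.absNorm P.asIdeal := by
  have e : (𝓞 F' ⧸ (actP σ P).asIdeal) ≃+* (𝓞 F' ⧸ P.asIdeal) :=
    Ideal.quotientEquiv _ _ ((RingOfIntegers.mapAlgEquiv σ.symm : 𝓞 F' ≃ₐ[𝓞 F] 𝓞 F') : 𝓞 F' ≃+* 𝓞 F')
      (by
        ext x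
        constructor
        · intro hx
          obtain ⟨y, rfl⟩ := (RingOfIntegers.mapAlgEquiv σ.symm : 𝓞 F' ≃ₐ[𝓞 F] 𝓞 F').surjective x
          exact Ideal.mem_map_of_mem _ ((mem_actP σ P y).2 hx)
        · intro hx
          rw [Ideal.mem_map_iff_of_surjective] at hx
          · obtain ⟨y, hy, rfl⟩ := hx
            exact (mem_actP σ P y).1 hy
          · exact (RingOfIntegers.mapAlgEquiv σ.symm : 𝓞 F' ≃ₐ[𝓞 F] 𝓞 F').surjective)
  rw [Ideal.absNorm_apply, Ideal.absNorm_apply, Submodule.cardQuot_apply, Submodule.cardQuot_apply]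
  exact Nat.card_congr e.toEquiv

/-- residue degree one: everything is congruent to an element of the base -/
theorem exists_congr (P : HeightOneSpectrum (𝓞 F')) (p : HeightOneSpectrum (𝓞 F))
    (hP : P.asIdeal.under (𝓞 F) = p.asIdeal)
    (hN : Ideal.absNorm P.asIdeal = Ideal.absNorm p.asIdeal) (x : 𝓞 F') :
    ∃ a : 𝓞 F, x - algebraMap (𝓞 F) (𝓞 F') a ∈ P.asIdeal := by
  have hle : p.asIdeal ≤ P.asIdeal.comap (algebraMap (𝓞 F) (𝓞 F')) := by
    rw [← hP]
  let φ : (𝓞 F ⧸ p.asIdeal) →+* (𝓞 F' ⧸ P.asIdeal) :=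
    Ideal.quotientMap P.asIdeal (algebraMap (𝓞 F) (𝓞 F')) hle
  have hinj : Function.Injective φ := by
    apply Ideal.quotientMap_injective'
    rw [← hP]
  have : Finite (𝓞 F' ⧸ P.asIdeal) := Ideal.finiteQuotientOfFreeOfNeBot _ P.ne_bot
  have : Finite (𝓞 F ⧸ p.asIdeal) := Ideal.finiteQuotientOfFreeOfNeBot _ p.ne_bot
  have hcard : Nat.card (𝓞 F ⧸ p.asIdeal) = Nat.card (𝓞 F' ⧸ P.asIdeal) := by
    rw [Ideal.absNorm_apply, Ideal.absNorm_apply, Submodule.cardQuot_apply,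
      Submodule.cardQuot_apply] at hN
    exact hN.symm
  have hsurj : Function.Surjective φ :=
    ((Nat.bijective_iff_injective_and_card φ).2 ⟨hinj, hcard⟩).2
  obtain ⟨b, hb⟩ := hsurj (Ideal.Quotient.mk P.asIdeal x)
  obtain ⟨a, rfl⟩ := Ideal.Quotient.mk_surjective b
  refine ⟨a, ?_⟩
  rw [← Ideal.Quotient.eq]
  rw [← hb]
  simp [φ]

/-- if a residue degree one prime is fixed by `σ`, then `x - σ x` lies in it -/
theorem sub_mem_of_fixed (σ : F' ≃ₐ[F] F') (P : HeightOneSpectrum (𝓞 F'))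
    (p : HeightOneSpectrum (𝓞 F)) (hP : P.asIdeal.under (𝓞 F) = p.asIdeal)
    (hN : Ideal.absNorm P.asIdeal = Ideal.absNorm p.asIdeal) (hfix : actP σ P = P) (x : 𝓞 F') :
    x - (RingOfIntegers.mapAlgEquiv σ.symm : 𝓞 F' ≃ₐ[𝓞 F] 𝓞 F') x ∈ P.asIdeal := by
  obtain ⟨a, ha⟩ := exists_congr P p hP hN x
  have h1 : x - algebraMap (𝓞 F) (𝓞 F') a ∈ (actP σ P).asIdeal := by rw [hfix]; exact ha
  rw [mem_actP, map_sub, AlgEquiv.commutes] at h1
  have := P.asIdeal.sub_mem ha h1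
  simpa using this

/-- finitely many primes contain a given nonzero element -/
theorem finite_primes_containing {F : Type*} [Field F] [NumberField F] (x : 𝓞 F) (hx : x ≠ 0) :
    {P : HeightOneSpectrum (𝓞 F) | x ∈ P.asIdeal}.Finite := by
  have h0 : Ideal.span {x} ≠ (0 : Ideal (𝓞 F)) := by
    simpa using hx
  have := Ideal.finite_factors h0
  refine this.subset ?_
  intro P hP
  simp only [Set.mem_ofPred_eq] at hP ⊢
  rw [Ideal.dvd_iff_le]
  rwa [Ideal.span_singleton_le_iff_mem]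

/-- **Quadratic step.**  If `F'/F` has a nontrivial automorphism, then outside any finite set
there is a prime of `F` with no prime of the same norm above it in `F'`. -/
theorem exists_no_same_norm (σ : F' ≃ₐ[F] F') (hσ : σ ≠ 1)
    (T : Finset (HeightOneSpectrum (𝓞 F))) :
    ∃ p : HeightOneSpectrum (𝓞 F), p ∉ T ∧ ∀ P : HeightOneSpectrum (𝓞 F'),
        P.asIdeal.under (𝓞 F) = p.asIdeal →
          Ideal.absNorm P.asIdeal ≠ Ideal.absNorm p.asIdeal := by
  classical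
  by_contra hcon
  push Not at hcon
  -- a moved integer
  obtain ⟨α, hα⟩ : ∃ α : 𝓞 F',
      (RingOfIntegers.mapAlgEquiv σ.symm : 𝓞 F' ≃ₐ[𝓞 F] 𝓞 F') α ≠ α := by
    by_contra hall
    push Not at hall
    apply hσ
    have hs : σ.symm = 1 := by
      ext y
      obtain ⟨a, b, hb, rfl⟩ := IsFractionRing.div_surjective (A := 𝓞 F') y
      have h1 : ∀ z : 𝓞 F', σ.symm (algebraMap (𝓞 F') F' z) = algebraMap (𝓞 F') F' z := by
        intro z
        have := hall z
        have h2 := congrArg (algebraMap (𝓞 F') F') this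
        exact h2
      rw [map_div₀, h1, h1]
      rfl
    have : σ = σ.symm.symm := rfl
    rw [this, hs]
    rfl
  set δ : 𝓞 F' := α - (RingOfIntegers.mapAlgEquiv σ.symm : 𝓞 F' ≃ₐ[𝓞 F] 𝓞 F') α with hδ
  have hδ0 : δ ≠ 0 := by
    rw [hδ, sub_ne_zero]
    exact hα.symm
  have hch : ∀ p : {p // p ∉ T}, ∃ P : HeightOneSpectrum (𝓞 F'),
      P.asIdeal.under (𝓞 F) = p.1.asIdeal ∧
      Ideal.absNorm P.asIdeal = Ideal.absNorm p.1.asIdeal := fun p => hcon p.1 p.2
  choose P hPu hPN using hch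
  let Tb : Set (HeightOneSpectrum (𝓞 F)) := {p | ∃ h : p ∉ T, δ ∈ (P ⟨p, h⟩).asIdeal}
  have hTb : Tb.Finite := by
    have hfin := (finite_primes_containing δ hδ0).to_subtype
    let u : Tb → {Q : HeightOneSpectrum (𝓞 F') | δ ∈ Q.asIdeal} :=
      fun p => ⟨P ⟨p.1, p.2.choose⟩, p.2.choose_spec⟩
    have hu : Function.Injective u := by
      intro p q h
      have h' : P ⟨p.1, p.2.choose⟩ = P ⟨q.1, q.2.choose⟩ := congrArg Subtype.val h
      apply Subtype.ext
      apply HeightOneSpectrum.ext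
      rw [← hPu ⟨p.1, p.2.choose⟩, ← hPu ⟨q.1, q.2.choose⟩, h']
    have := Finite.of_injective u hu
    exact Set.toFinite Tb
  obtain ⟨P0⟩ : Nonempty (HeightOneSpectrum (𝓞 F')) := by
    obtain ⟨I, hI⟩ := Ideal.exists_maximal (𝓞 F')
    exact ⟨⟨I, hI.isPrime, Ring.ne_bot_of_isMaximal_of_not_isField hI
      (RingOfIntegers.not_isField F')⟩⟩
  let T' : Finset (HeightOneSpectrum (𝓞 F)) := T ∪ hTb.toFinset
  let f : HeightOneSpectrum (𝓞 F) → HeightOneSpectrum (𝓞 F') :=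
    fun p => if h : p ∉ T then P ⟨p, h⟩ else P0
  have hf : ∀ p ∉ T', ∃ h : p ∉ T, f p = P ⟨p, h⟩ ∧ δ ∉ (P ⟨p, h⟩).asIdeal := by
    intro p hp
    have h1 : p ∉ T := fun h => hp (Finset.mem_union_left _ h)
    refine ⟨h1, ?_, ?_⟩
    · simp only [f]
      rw [dif_pos h1]
    · intro h2
      exact hp (Finset.mem_union_right _ (hTb.mem_toFinset.2 ⟨h1, h2⟩))
  have hfu : ∀ p ∉ T', (f p).asIdeal.under (𝓞 F) = p.asIdeal := by
    intro p hp
    obtain ⟨h, h1, -⟩ := hf p hp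
    rw [h1, hPu]
  have hfN : ∀ p ∉ T', Ideal.absNorm (f p).asIdeal = Ideal.absNorm p.asIdeal := by
    intro p hp
    obtain ⟨h, h1, -⟩ := hf p hp
    rw [h1, hPN]
  refine no_double F F' T' f (fun p => actP σ (f p)) ?_ ?_ ?_ hfN ?_
  · intro x hx y hy h
    apply HeightOneSpectrum.ext
    rw [← hfu x hx, ← hfu y hy, h]
  · intro x hx y hy h
    apply HeightOneSpectrum.ext
    have h' : actP σ (f x) = actP σ (f y) := h
    rw [← hfu x hx, ← hfu y hy, ← under_actP σ (f x), ← under_actP σ (f y), h']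
  · intro x hx y hy h
    have h' : f x = actP σ (f y) := h
    have hxy : x = y := by
      apply HeightOneSpectrum.ext
      rw [← hfu x hx, ← hfu y hy, ← under_actP σ (f y), h']
    subst hxy
    obtain ⟨h1, h2, h3⟩ := hf x hx
    have := sub_mem_of_fixed σ (f x) x (hfu x hx) (hfN x hx) h'.symm α
    rw [h2] at this
    exact h3 this
  · intro x hx
    have : Ideal.absNorm (actP σ (f x)).asIdeal = Ideal.absNorm (f x).asIdeal :=
      absNorm_actP σ (f x)
    rw [this, hfN x hx]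

end Pool.Agent.Lib.MP_d0f9e0_co.FD
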