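import Pool.Agent.Lib.MP_d0f9e0_co.FD.Frob

/-!
# The Galois step

From the law `h² c(t) = c(q t)` for Frobenius elements `h` outside a subgroup of index two to
`τ σ c(t) = σ c(-t)` for one `σ` outside the subgroup, `τ` = complex conjugation.
-/

open scoped NumberField
open IsDedekindDomain NumberField

namespace Pool.Agent.Lib.MP_d0f9e0_co.FD

/-- a Sylow `2`-subgroup containing `τ` is not contained in a subgroup of index two -/
theorem exists_sylow_pair {G : Type*} [Group G] [Finite G] (Γ : Subgroup G) (hΓ : Γ.index = 2)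
    (τ : G) (hτ2 : τ ^ 2 = 1) :
    ∃ σ, σ ∉ Γ ∧ ∃ a : ℕ, σ ^ (2 ^ a) = 1 ∧ (τ * σ) ^ (2 ^ a) = 1 := by
  have h2 : Fact (Nat.Prime 2) := ⟨Nat.prime_two⟩
  have hp : IsPGroup 2 (Subgroup.zpowers τ) := by
    rw [IsPGroup.iff_orderOf]
    rintro ⟨x, hx⟩
    obtain ⟨k, rfl⟩ := Subgroup.mem_zpowers_iff.1 hx
    have h1 : orderOf (τ ^ k) ∣ 2 ^ 1 := by
      apply orderOf_dvd_of_pow_eq_one
      rw [pow_one, ← zpow_natCast, ← zpow_mul, mul_comm, zpow_mul, zpow_natCast, hτ2, one_zpow]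
    obtain ⟨b, -, hb⟩ := (Nat.dvd_prime_pow Nat.prime_two).1 h1
    exact ⟨b, by rw [← hb]; exact (Subgroup.orderOf_mk _ _)⟩
  obtain ⟨P, hP⟩ := hp.exists_le_sylow
  have hτP : τ ∈ P := hP (Subgroup.mem_zpowers τ)
  have hnot : ¬ (P : Subgroup G) ≤ Γ := by
    intro hle
    have h3 := Subgroup.index_dvd_of_le hle
    rw [hΓ] at h3
    exact P.not_dvd_index h3
  obtain ⟨σ, hσP, hσΓ⟩ := SetLike.not_le_iff_exists.1 hnot
  have hτσP : τ * σ ∈ (P : Subgroup G) := mul_mem hτP hσP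
  obtain ⟨k1, hk1⟩ := P.isPGroup' ⟨σ, hσP⟩
  obtain ⟨k2, hk2⟩ := P.isPGroup' ⟨τ * σ, hτσP⟩
  have hk1' : σ ^ 2 ^ k1 = 1 := congrArg Subtype.val hk1
  have hk2' : (τ * σ) ^ 2 ^ k2 = 1 := congrArg Subtype.val hk2
  refine ⟨σ, hσΓ, k1 + k2, ?_, ?_⟩
  · rw [pow_add, pow_mul, hk1', one_pow]
  · rw [pow_add, mul_comm, pow_mul, hk2', one_pow]

section Law

variable {M T : Type*} [Field M] [Algebra ℚ M] [AddCommGroup T]

/-- the law `x² c(t) = c(m t)` -/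
def Law (c : T → M) (x : M ≃ₐ[ℚ] M) (m : ℕ) : Prop :=
  ∀ t, x (x (c t)) = c (m • t)

theorem Law.pow {c : T → M} {x : M ≃ₐ[ℚ] M} {m : ℕ} (h : Law c x m) (f : ℕ) :
    Law c (x ^ f) (m ^ f) := by
  induction f with
  | zero =>
    intro t
    simp
  | succ f ih =>
    intro t
    have e : (x ^ (f + 1)) ((x ^ (f + 1)) (c t)) = (x ^ f) ((x ^ f) (x (x (c t)))) := by
      have e1 : x ^ (f + 1) * x ^ (f + 1) = x ^ f * (x ^ f * (x * x)) := by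
        rw [← pow_two, ← pow_mul, ← mul_assoc, ← pow_two, ← pow_two, ← pow_mul, ← pow_add]
        congr 1
        ring
      exact congrArg (fun g : M ≃ₐ[ℚ] M => g (c t)) e1
    rw [e, h t, ih (m • t), ← mul_smul, pow_succ]

theorem Law.congr {c : T → M} {x : M ≃ₐ[ℚ] M} {m m' e : ℕ} (h : Law c x m)
    (hT : ∀ t : T, e • t = 0) (hm : m ≡ m' [MOD e]) : Law c x m' := by
  intro t
  rw [h t]
  congr 1
  have h1 : ∀ k : ℕ, k • t = (k % e) • t := by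
    intro k
    conv_lhs => rw [← Nat.div_add_mod k e, add_smul, mul_comm, mul_smul, hT, smul_zero, zero_add]
  rw [h1 m, h1 m', hm]

end Law

/-- the residue characteristic -/
theorem card_int_quotient {M : Type*} [Field M] (Q : Ideal (𝓞 M)) (hQ : Q.IsPrime)
    {q : ℕ} (hq : q.Prime) (hqQ : ((q : ℕ) : 𝓞 M) ∈ Q) : Nat.card (ℤ ⧸ Q.under ℤ) = q := by
  have h1 : (q : ℤ) ∈ Q.under ℤ := by
    rw [Ideal.under, Ideal.mem_comap]
    simpa using hqQ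
  have h2 : (Q.under ℤ).IsPrime := Ideal.IsPrime.under _ Q
  have h3 : Q.under ℤ ≠ ⊥ := by
    intro h
    rw [h, Ideal.mem_bot] at h1
    exact hq.ne_zero (by exact_mod_cast h1)
  have h4 : (Ideal.absNorm (Q.under ℤ)).Prime := by
    rw [Int.prime_absNorm]
    exact Ideal.prime_of_isPrime h3 h2
  have h5 : (q : ℤ) ∈ Ideal.span {((Ideal.absNorm (Q.under ℤ) : ℕ) : ℤ)} := by
    rw [Int.ideal_span_absNorm_eq_self]; exact h1
  rw [Ideal.mem_span_singleton] at h5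
  have h6 : Ideal.absNorm (Q.under ℤ) ∣ q := by exact_mod_cast h5
  have h7 := (Nat.prime_dvd_prime_iff_eq h4 hq).1 h6
  rw [Ideal.absNorm_apply, Submodule.cardQuot_apply] at h7
  exact h7

/-- a Frobenius acts on roots of unity of order prime to `q` as the `q`-th power -/
theorem autToPow_frob {M : Type*} [Field M] [NumberField M] (e : ℕ) [NeZero e] {ζ : M}
    (hζ : IsPrimitiveRoot ζ e) (Q : Ideal (𝓞 M)) (hQ : Q.IsPrime)
    {q : ℕ} (hq : q.Prime) (hqQ : ((q : ℕ) : 𝓞 M) ∈ Q) (he : e < q) (h : M ≃ₐ[ℚ] M)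
    (hh : ∀ x : 𝓞 M, h • x - x ^ q ∈ Q) : (hζ.autToPow ℚ h : ZMod e) = (q : ZMod e) := by
  have hint : IsIntegral ℤ ζ := hζ.isIntegral (NeZero.pos e)
  let z : 𝓞 M := ⟨ζ, hint⟩
  have hze : z ^ e = 1 := by
    apply RingOfIntegers.ext
    exact hζ.pow_eq_one
  have hcop : Nat.Coprime q e :=
    (Nat.Prime.coprime_iff_not_dvd hq).2 (fun hd => by
      have := Nat.le_of_dvd (NeZero.pos e) hd
      omega)
  have heQ : ((e : ℕ) : 𝓞 M) ∉ Q := by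
    intro hmem
    have h1 := Nat.isCoprime_iff_coprime.2 hcop
    obtain ⟨u, v, huv⟩ := h1
    apply hQ.ne_top
    rw [Ideal.eq_top_iff_one]
    have h2 : ((u : ℤ) : 𝓞 M) * ((q : ℕ) : 𝓞 M) + ((v : ℤ) : 𝓞 M) * ((e : ℕ) : 𝓞 M) ∈ Q :=
      Q.add_mem (Q.mul_mem_left _ hqQ) (Q.mul_mem_left _ hmem)
    have h3 : ((u : ℤ) : 𝓞 M) * ((q : ℕ) : 𝓞 M) + ((v : ℤ) : 𝓞 M) * ((e : ℕ) : 𝓞 M) = 1 := by
      exact_mod_cast congrArg (fun n : ℤ => (n : 𝓞 M)) huv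
    rwa [h3] at h2
  have hcard := card_int_quotient Q hQ hq hqQ
  have hF : (MulSemiringAction.toAlgHom ℤ (𝓞 M) h).IsArithFrobAt Q := by
    intro x
    rw [hcard]
    exact hh x
  have h4 := hF.apply_of_pow_eq_one hze heQ
  rw [hcard] at h4
  have h5 : h ζ = ζ ^ q := congrArg (algebraMap (𝓞 M) M) h4
  have h6 := hζ.autToPow_spec ℚ h
  rw [h5] at h6
  rw [pow_eq_pow_mod q hζ.pow_eq_one] at h6
  have h7 := hζ.pow_inj (ZMod.val_lt _) (Nat.mod_lt _ (NeZero.pos e)) h6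
  have h8 : ((hζ.autToPow ℚ h : ZMod e).val : ZMod e) = ((q : ℕ) : ZMod e) := by
    rw [ZMod.natCast_eq_natCast_iff, h7]
    exact Nat.mod_modEq _ _
  rwa [ZMod.natCast_val, ZMod.cast_id] at h8

variable {M : Type*} [Field M] [NumberField M] [IsGalois ℚ M]

/-- From Frobenius elements outside `Γ` to elements of `2`-power order outside `Γ`. -/
theorem law_of_frob {T : Type*} [AddCommGroup T] (c : T → M) (e : ℕ) [NeZero e] {ζ : M}
    (hζ : IsPrimitiveRoot ζ e) (hT : ∀ t : T, e • t = 0) (Γ : Subgroup (M ≃ₐ[ℚ] M))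
    (hΓ : Γ.index = 2) (N : ℕ)
    (law : ∀ q : ℕ, q.Prime → N < q → ∀ Q : Ideal (𝓞 M), Q.IsMaximal → ((q : ℕ) : 𝓞 M) ∈ Q →
      ∀ h : M ≃ₐ[ℚ] M, h ∉ Γ → (∀ x : 𝓞 M, h • x - x ^ q ∈ Q) → Law c h q)
    (g : M ≃ₐ[ℚ] M) (hg : g ∉ Γ) (a : ℕ) (ha : g ^ (2 ^ a) = 1) :
    Law c g (hζ.autToPow ℚ g : ZMod e).val := by
  obtain ⟨q, hq, hN, Q, hQ, hqQ, h, hhΓ, hh, f, j, hf, hj, hfj⟩ :=
    exists_frob_odd Γ hΓ g hg a ha (max N e)
  have hNq : N < q := lt_of_le_of_lt (le_max_left _ _) hN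
  have heq : e < q := lt_of_le_of_lt (le_max_right _ _) hN
  have h1 : Law c h q := law q hq hNq Q hQ hqQ h hhΓ hh
  -- `g` is a power of `g ^ j`
  obtain ⟨i, hi⟩ : ∃ i : ℕ, (g ^ j) ^ i = g := by
    apply exists_pow_eq_self_of_coprime
    refine Nat.Coprime.coprime_dvd_right (orderOf_dvd_of_pow_eq_one ha) ?_
    exact Nat.Coprime.pow_right a (Nat.coprime_two_right.2 hj)
  have h2 : Law c g ((q ^ f) ^ i) := by
    have := (h1.pow f).pow i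
    rwa [hfj, hi] at this
  refine h2.congr hT ?_
  have h3 : (hζ.autToPow ℚ g : ZMod e) = (((q ^ f) ^ i : ℕ) : ZMod e) := by
    have h4 : g = (h ^ f) ^ i := by rw [hfj, hi]
    rw [h4, map_pow, map_pow, Units.val_pow_eq_pow_val, Units.val_pow_eq_pow_val,
      autToPow_frob e hζ Q hQ.isPrime hq hqQ heq h hh]
    push_cast
    rfl
  rw [h3, ZMod.val_natCast]
  exact (Nat.mod_modEq _ _).symm

/-- **The Galois step.** -/
theorem galois_step {T : Type*} [AddCommGroup T] (c : T → M) (e : ℕ) [NeZero e] {ζ : M}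
    (hζ : IsPrimitiveRoot ζ e) (hT : ∀ t : T, e • t = 0) (Γ : Subgroup (M ≃ₐ[ℚ] M))
    (hΓ : Γ.index = 2) (N : ℕ)
    (law : ∀ q : ℕ, q.Prime → N < q → ∀ Q : Ideal (𝓞 M), Q.IsMaximal → ((q : ℕ) : 𝓞 M) ∈ Q →
      ∀ h : M ≃ₐ[ℚ] M, h ∉ Γ → (∀ x : 𝓞 M, h • x - x ^ q ∈ Q) → Law c h q)
    (τ : M ≃ₐ[ℚ] M) (hτΓ : τ ∈ Γ) (hτ2 : τ ^ 2 = 1) (hτζ : τ ζ = ζ⁻¹)
    (hτc : ∀ t, τ (c t) = c t) :
    ∃ σ : M ≃ₐ[ℚ] M, σ ∉ Γ ∧ ∀ t, τ (σ (c t)) = σ (c (-t)) := by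
  obtain ⟨σ, hσ, a, ha1, ha2⟩ := exists_sylow_pair Γ hΓ τ hτ2
  have hτσ : τ * σ ∉ Γ := fun h => hσ ((Γ.mul_mem_cancel_left hτΓ).1 h)
  have L1 := law_of_frob c e hζ hT Γ hΓ N law σ hσ a ha1
  have L2 := law_of_frob c e hζ hT Γ hΓ N law (τ * σ) hτσ a ha2
  set u := (hζ.autToPow ℚ σ : ZMod e) with hu
  have hχτ : (hζ.autToPow ℚ τ : ZMod e) = -1 := by
    have h1 := hζ.autToPow_spec ℚ τ
    rw [hτζ] at h1
    have h2 : ζ ^ ((hζ.autToPow ℚ τ : ZMod e).val + 1) = 1 := by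
      rw [pow_succ, h1, inv_mul_cancel₀ (hζ.ne_zero (NeZero.ne e))]
    have h3 := (hζ.pow_eq_one_iff_dvd _).1 h2
    have h4 : (((hζ.autToPow ℚ τ : ZMod e).val + 1 : ℕ) : ZMod e) = 0 :=
      (ZMod.natCast_eq_zero_iff _ _).2 h3
    rw [Nat.cast_add, ZMod.natCast_val, ZMod.cast_id, Nat.cast_one] at h4
    exact eq_neg_of_add_eq_zero_left h4
  have hneg : ∀ t : T, ((hζ.autToPow ℚ (τ * σ) : ZMod e).val) • t = u.val • (-t) := by
    intro t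
    have h1 : (hζ.autToPow ℚ (τ * σ) : ZMod e) = -u := by
      rw [map_mul, Units.val_mul, hχτ, neg_one_mul]
    have h2 : e ∣ (-u).val + u.val := by
      rw [← ZMod.natCast_eq_zero_iff]
      push_cast
      rw [ZMod.natCast_val, ZMod.cast_id, ZMod.natCast_val, ZMod.cast_id, neg_add_cancel]
    obtain ⟨k, hk⟩ := h2
    have h3 : ((-u).val + u.val) • t = 0 := by
      rw [hk, mul_comm, mul_smul, hT, smul_zero]
    rw [h1, smul_neg, ← add_eq_zero_iff_eq_neg, ← add_smul]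
    exact h3
  refine ⟨σ, hσ, fun t => ?_⟩
  have h1 := L2 t
  rw [hneg] at h1
  have h2 : σ (σ (c (-t))) = c (u.val • (-t)) := L1 (-t)
  have h3 : τ (σ (τ (σ (c t)))) = c (u.val • (-t)) := h1
  have h4 := congrArg τ h3
  have h5 : ∀ x, τ (τ x) = x := by
    intro x
    have := congrArg (fun g : M ≃ₐ[ℚ] M => g x) hτ2
    rwa [sq] at this
  rw [h5, hτc, ← h2] at h4
  exact σ.injective h4

end Pool.Agent.Lib.MP_d0f9e0_co.FD
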